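import Mathlib

/-!
# A smooth periodic function with prescribed bumps
-/

namespace TuringEuler

open scoped ContDiff
open Filter Topology

/-- The profile `exp (-1 / (1 - y²))` on `(-1, 1)`, and `0` elsewhere. -/
noncomputable def profile (y : ℝ) : ℝ := expNegInvGlue (1 - y ^ 2)

theorem profile_nonneg (y : ℝ) : 0 ≤ profile y := expNegInvGlue.nonneg _

theorem profile_pos {y : ℝ} (h : |y| < 1) : 0 < profile y := by
  apply expNegInvGlue.pos_of_pos
  have : y ^ 2 < 1 := by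
    rw [← sq_abs]
    have := abs_nonneg y
    nlinarith
  linarith

theorem profile_eq_zero {y : ℝ} (h : 1 ≤ |y|) : profile y = 0 := by
  apply expNegInvGlue.zero_of_nonpos
  have : 1 ≤ y ^ 2 := by
    rw [← sq_abs]
    nlinarith
  linarith

theorem profile_le_one (y : ℝ) : profile y ≤ 1 := by
  unfold profile expNegInvGlue
  split_ifs with h
  · norm_num
  · push Not at h
    apply Real.exp_le_one_iff.2
    have := inv_pos.2 h
    linarith

theorem contDiff_profile : ContDiff ℝ ∞ profile := by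
  unfold profile
  exact expNegInvGlue.contDiff.comp (contDiff_const.sub (contDiff_id.pow 2))

theorem hasCompactSupport_profile : HasCompactSupport profile := by
  apply HasCompactSupport.intro (isCompact_Icc (a := (-1 : ℝ)) (b := 1))
  intro y hy
  apply profile_eq_zero
  by_contra h
  push Not at h
  apply hy
  rw [abs_lt] at h
  exact ⟨h.1.le, h.2.le⟩

theorem exists_bound_profile (k : ℕ) : ∃ C : ℝ, 0 ≤ C ∧ ∀ y, ‖iteratedDeriv k profile y‖ ≤ C := by
  have h1 : Continuous (iteratedFDeriv ℝ k profile) :=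
    contDiff_profile.continuous_iteratedFDeriv (by exact_mod_cast le_top)
  obtain ⟨C, hC⟩ := h1.bounded_above_of_compact_support (hasCompactSupport_profile.iteratedFDeriv k)
  refine ⟨C, (norm_nonneg _).trans (hC 0), fun y => ?_⟩
  rw [← norm_iteratedFDeriv_eq_norm_iteratedDeriv]
  exact hC y

/-- The centres of the bumps. -/
noncomputable def centre (n : ℕ) : ℝ := 1 / 4 + 1 / 2 ^ (n + 2)

/-- The `n`-th bump. -/
noncomputable def bump (n : ℕ) (x : ℝ) : ℝ := profile (2 ^ (n + 5) * (x - centre n))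

/-- The `m`-th term of the series; `h m` is a natural number, `0` or `1` in the application. -/
noncomputable def term (h : ℕ → ℕ) (m : ℕ) (x : ℝ) : ℝ :=
  (h m : ℝ) / 2 ^ ((m + 4) ^ 2) * bump m.unpair.1 x

/-- The sum of the series. -/
noncomputable def wave (h : ℕ → ℕ) (x : ℝ) : ℝ := ∑' m, term h m x

theorem contDiff_bump (n : ℕ) : ContDiff ℝ ∞ (bump n) := by
  unfold bump
  exact contDiff_profile.comp (contDiff_const.mul (contDiff_id.sub contDiff_const))

theorem contDiff_term (h : ℕ → ℕ) (m : ℕ) : ContDiff ℝ ∞ (term h m) := by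
  unfold term
  exact contDiff_const.mul (contDiff_bump _)

theorem iteratedDeriv_bump (n k : ℕ) (x : ℝ) :
    iteratedDeriv k (bump n) x =
      (2 ^ (n + 5)) ^ k * iteratedDeriv k profile (2 ^ (n + 5) * (x - centre n)) := by
  have h1 : bump n = fun x => (fun z => profile (2 ^ (n + 5) * z)) (x + (-centre n)) := by
    funext x
    simp [bump, sub_eq_add_neg]
  have h3 := congrFun (iteratedDeriv_comp_add_const k (fun z => profile (2 ^ (n + 5) * z))
    (-centre n)) x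
  have h2 := iteratedDeriv_comp_const_mul (n := k) (f := profile)
    (contDiff_profile.of_le (by exact_mod_cast le_top)) ((2 : ℝ) ^ (n + 5))
  rw [h1, h3, h2]
  simp [sub_eq_add_neg]

theorem pow_bound (k m : ℕ) :
    ((2 : ℝ) ^ (m + 5)) ^ k / 2 ^ ((m + 4) ^ 2) ≤ 2 ^ (5 * k + (k + 1) ^ 2) * (1 / 2) ^ m := by
  have key : (m + 5) * k + m ≤ 5 * k + (k + 1) ^ 2 + (m + 4) ^ 2 := by
    nlinarith [sq_nonneg ((m : ℤ) - k), Nat.zero_le m, Nat.zero_le k,
      mul_self_nonneg ((m : ℤ) - (k + 1))]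
  rw [div_le_iff₀ (by positivity), one_div, inv_pow, ← pow_mul]
  have h3 : (2 : ℝ) ^ ((m + 5) * k) * 2 ^ m ≤ 2 ^ (5 * k + (k + 1) ^ 2) * 2 ^ ((m + 4) ^ 2) := by
    rw [← pow_add, ← pow_add]
    exact pow_le_pow_right₀ (by norm_num) key
  have h4 : (0 : ℝ) < 2 ^ m := by positivity
  calc (2 : ℝ) ^ ((m + 5) * k) = (2 ^ ((m + 5) * k) * 2 ^ m) * (2 ^ m)⁻¹ := by
        field_simp
    _ ≤ (2 ^ (5 * k + (k + 1) ^ 2) * 2 ^ ((m + 4) ^ 2)) * (2 ^ m)⁻¹ := by gcongr
    _ = _ := by ring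

theorem norm_iteratedFDeriv_term_le (h : ℕ → ℕ) (hh : ∀ m, h m ≤ 1) (k : ℕ) (C : ℝ) (hC0 : 0 ≤ C)
    (hC : ∀ y, ‖iteratedDeriv k profile y‖ ≤ C) (m : ℕ) (x : ℝ) :
    ‖iteratedFDeriv ℝ k (term h m) x‖ ≤ C * 2 ^ (5 * k + (k + 1) ^ 2) * (1 / 2) ^ m := by
  rw [norm_iteratedFDeriv_eq_norm_iteratedDeriv]
  have h1 : iteratedDeriv k (term h m) x =
      (h m : ℝ) / 2 ^ ((m + 4) ^ 2) * iteratedDeriv k (bump m.unpair.1) x := by
    unfold term
    rw [iteratedDeriv_const_mul_field]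
  rw [h1, iteratedDeriv_bump, norm_mul, norm_mul]
  have h2 : ‖(h m : ℝ) / 2 ^ ((m + 4) ^ 2)‖ ≤ 1 / 2 ^ ((m + 4) ^ 2) := by
    rw [Real.norm_of_nonneg (by positivity)]
    have : (h m : ℝ) ≤ 1 := by exact_mod_cast hh m
    gcongr
  have h3 : ‖((2 : ℝ) ^ (m.unpair.1 + 5)) ^ k‖ ≤ (2 ^ (m + 5)) ^ k := by
    rw [Real.norm_of_nonneg (by positivity)]
    have h4 : m.unpair.1 ≤ m := Nat.unpair_left_le m
    gcongr
    norm_num
  calc ‖(h m : ℝ) / 2 ^ ((m + 4) ^ 2)‖ * (‖((2 : ℝ) ^ (m.unpair.1 + 5)) ^ k‖ *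
        ‖iteratedDeriv k profile (2 ^ (m.unpair.1 + 5) * (x - centre m.unpair.1))‖)
      ≤ 1 / 2 ^ ((m + 4) ^ 2) * ((2 ^ (m + 5)) ^ k * C) := by
        gcongr
        exact hC _
    _ = C * ((2 ^ (m + 5)) ^ k / 2 ^ ((m + 4) ^ 2)) := by ring
    _ ≤ C * (2 ^ (5 * k + (k + 1) ^ 2) * (1 / 2) ^ m) := by
        gcongr
        exact pow_bound k m
    _ = _ := by ring

theorem contDiff_wave (h : ℕ → ℕ) (hh : ∀ m, h m ≤ 1) : ContDiff ℝ ∞ (wave h) := by
  choose C hC0 hC using exists_bound_profile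
  refine contDiff_tsum (v := fun k m => C k * 2 ^ (5 * k + (k + 1) ^ 2) * (1 / 2) ^ m)
    (contDiff_term h) (fun k _ => ?_)
    (fun k m x _ => norm_iteratedFDeriv_term_le h hh k (C k) (hC0 k) (hC k) m x)
  exact (summable_geometric_of_lt_one (by norm_num) (by norm_num)).mul_left _

theorem term_nonneg (h : ℕ → ℕ) (m : ℕ) (x : ℝ) : 0 ≤ term h m x := by
  unfold term bump
  have := profile_nonneg (2 ^ (m.unpair.1 + 5) * (x - centre m.unpair.1))
  positivity

theorem term_le (h : ℕ → ℕ) (hh : ∀ m, h m ≤ 1) (m : ℕ) (x : ℝ) : term h m x ≤ 1 / 2 ^ ((m + 4) ^ 2) := by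
  unfold term bump
  have h1 := profile_nonneg (2 ^ (m.unpair.1 + 5) * (x - centre m.unpair.1))
  have h2 := profile_le_one (2 ^ (m.unpair.1 + 5) * (x - centre m.unpair.1))
  have h3 : (h m : ℝ) ≤ 1 := by exact_mod_cast hh m
  have h4 : (h m : ℝ) / 2 ^ ((m + 4) ^ 2) ≤ 1 / 2 ^ ((m + 4) ^ 2) := by gcongr
  calc _ ≤ (1 : ℝ) / 2 ^ ((m + 4) ^ 2) * 1 := by gcongr
    _ = _ := by ring

theorem term_le' (h : ℕ → ℕ) (hh : ∀ m, h m ≤ 1) (m : ℕ) (x : ℝ) : term h m x ≤ (1 / 2) ^ m := by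
  refine (term_le h hh m x).trans ?_
  rw [one_div, one_div, inv_pow]
  gcongr
  · norm_num
  · nlinarith [Nat.zero_le m]

theorem summable_term (h : ℕ → ℕ) (hh : ∀ m, h m ≤ 1) (x : ℝ) : Summable fun m => term h m x :=
  Summable.of_nonneg_of_le (fun m => term_nonneg h m x) (fun m => term_le' h hh m x)
    (summable_geometric_of_lt_one (by norm_num) (by norm_num))

theorem wave_nonneg (h : ℕ → ℕ) (x : ℝ) : 0 ≤ wave h x :=
  tsum_nonneg fun m => term_nonneg h m x

/-! ### Disjointness of the bumps -/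

theorem centre_bounds (n : ℕ) : 1 / 4 + 1 / 2 ^ (n + 2) = centre n ∧ centre n ≤ 1 / 2 := by
  refine ⟨rfl, ?_⟩
  unfold centre
  have : (1 : ℝ) / 2 ^ (n + 2) ≤ 1 / 4 := by
    have h4 : (4 : ℝ) ≤ 2 ^ (n + 2) := by
      have : (1 : ℝ) ≤ 2 ^ n := one_le_pow₀ (by norm_num)
      rw [pow_add]; linarith
    exact one_div_le_one_div_of_le (by norm_num) h4
  linarith

theorem centre_gap {n m : ℕ} (hnm : n < m) : 1 / 2 ^ (n + 3) ≤ centre n - centre m := by
  unfold centre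
  have h1 : (1 : ℝ) / 2 ^ (m + 2) ≤ 1 / 2 ^ (n + 3) := by
    apply one_div_le_one_div_of_le (by positivity)
    exact pow_le_pow_right₀ (by norm_num) (by omega)
  have h2 : (1 : ℝ) / 2 ^ (n + 2) = 2 * (1 / 2 ^ (n + 3)) := by
    rw [pow_succ (2 : ℝ) (n + 2)]
    field_simp
  linarith

theorem bump_eq_zero_of_near {n m : ℕ} (hnm : n ≠ m) {x : ℝ}
    (hx : |x - centre n| < 1 / 2 ^ (n + 5)) : bump m x = 0 := by
  apply profile_eq_zero
  rw [abs_mul, abs_of_pos (by positivity)]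
  have hp : (0 : ℝ) < 2 ^ (m + 5) := by positivity
  suffices h : 1 / 2 ^ (m + 5) ≤ |x - centre m| by
    rw [div_le_iff₀ hp] at h
    linarith
  have e5 : ∀ j : ℕ, (1 : ℝ) / 2 ^ (j + 3) = 4 * (1 / 2 ^ (j + 5)) := by
    intro j
    rw [show j + 5 = (j + 3) + 2 by ring, pow_add (2 : ℝ) (j + 3) 2]
    field_simp
    norm_num
  rw [abs_lt] at hx
  rcases lt_or_gt_of_ne hnm with h | h
  · have h1 := centre_gap h
    rw [e5] at h1
    have h2 : (1 : ℝ) / 2 ^ (m + 5) ≤ 1 / 2 ^ (n + 5) := by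
      apply one_div_le_one_div_of_le (by positivity)
      exact pow_le_pow_right₀ (by norm_num) (by omega)
    have h3 : (0 : ℝ) < 1 / 2 ^ (n + 5) := by positivity
    refine le_trans ?_ (le_abs_self _)
    linarith
  · have h1 := centre_gap h
    rw [e5] at h1
    have h2 : (1 : ℝ) / 2 ^ (n + 5) ≤ 1 / 2 ^ (m + 5) := by
      apply one_div_le_one_div_of_le (by positivity)
      exact pow_le_pow_right₀ (by norm_num) (by omega)
    have h3 : (0 : ℝ) < 1 / 2 ^ (m + 5) := by positivity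
    refine le_trans ?_ (neg_le_abs _)
    linarith

theorem bump_pos_of_near {n : ℕ} {x : ℝ} (hx : |x - centre n| < 1 / 2 ^ (n + 5)) :
    0 < bump n x := by
  apply profile_pos
  rw [abs_mul, abs_of_pos (by positivity)]
  have hp : (0 : ℝ) < 2 ^ (n + 5) := by positivity
  rw [lt_div_iff₀ hp] at hx
  linarith

theorem bump_eq_zero_of_far {n : ℕ} {x : ℝ} (hx : x ≤ 1 / 4 ∨ 3 / 4 ≤ x) : bump n x = 0 := by
  apply profile_eq_zero
  rw [abs_mul, abs_of_pos (by positivity)]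
  have hp : (0 : ℝ) < 2 ^ (n + 5) := by positivity
  suffices h : 1 / 2 ^ (n + 5) ≤ |x - centre n| by
    rw [div_le_iff₀ hp] at h
    linarith
  have e5 : (1 : ℝ) / 2 ^ (n + 5) ≤ 1 / 2 ^ (n + 2) := by
    apply one_div_le_one_div_of_le (by positivity)
    exact pow_le_pow_right₀ (by norm_num) (by omega)
  obtain ⟨h1, h2⟩ := centre_bounds n
  have h3 : (1 : ℝ) / 2 ^ (n + 2) ≤ 1 / 4 := by linarith
  rcases hx with h | h
  · refine le_trans ?_ (neg_le_abs _)
    linarith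
  · refine le_trans ?_ (le_abs_self _)
    linarith

theorem wave_eq_zero_of_far (h : ℕ → ℕ) {x : ℝ} (hx : x ≤ 1 / 4 ∨ 3 / 4 ≤ x) : wave h x = 0 := by
  unfold wave
  have : (fun m => term h m x) = fun _ => 0 := by
    funext m
    simp [term, bump_eq_zero_of_far hx]
  rw [this, tsum_zero]

/-- Near the centre of the `n`-th bump the function is positive iff some coefficient attached to
`n` is non-zero. -/
theorem wave_pos_iff (h : ℕ → ℕ) (hh : ∀ m, h m ≤ 1) {n : ℕ} {x : ℝ}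
    (hx : |x - centre n| < 1 / 2 ^ (n + 5)) :
    0 < wave h x ↔ ∃ j, h (Nat.pair n j) ≠ 0 := by
  constructor
  · intro hpos
    by_contra hcon
    push Not at hcon
    have : (fun m => term h m x) = fun _ => 0 := by
      funext m
      by_cases hm : m.unpair.1 = n
      · have h1 : h m = 0 := by
          have := hcon m.unpair.2
          rw [← hm, Nat.pair_unpair] at this
          exact this
        simp [term, h1]
      · simp [term, bump_eq_zero_of_near (Ne.symm hm) hx]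
    unfold wave at hpos
    rw [this, tsum_zero] at hpos
    exact lt_irrefl _ hpos
  · rintro ⟨j, hj⟩
    unfold wave
    refine (summable_term h hh x).tsum_pos (fun m => term_nonneg h m x) (Nat.pair n j) ?_
    unfold term
    rw [Nat.unpair_pair]
    have h1 := bump_pos_of_near hx
    have h2 : (0 : ℝ) < h (Nat.pair n j) := by
      exact_mod_cast Nat.pos_of_ne_zero hj
    positivity

/-! ### Periodisation -/

/-- The periodic version. -/
noncomputable def pwave (h : ℕ → ℕ) (x : ℝ) : ℝ := wave h (Int.fract x)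

theorem pwave_nonneg (h : ℕ → ℕ) (x : ℝ) : 0 ≤ pwave h x := wave_nonneg _ _

theorem pwave_periodic (h : ℕ → ℕ) : Function.Periodic (pwave h) 1 := by
  intro x
  simp [pwave]

theorem pwave_eventuallyEq (h : ℕ → ℕ) (x : ℝ) :
    pwave h =ᶠ[𝓝 x] fun y => wave h (y - ⌊x⌋) := by
  have h1 : ∀ᶠ y in 𝓝 x, |y - x| < 1 / 8 := by
    have := Metric.ball_mem_nhds x (show (0 : ℝ) < 1 / 8 by norm_num)
    filter_upwards [this] with y hy
    rwa [Metric.mem_ball, Real.dist_eq] at hy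
  have h2 : ∀ᶠ y in 𝓝 x, y < (⌊x⌋ : ℝ) + 1 :=
    eventually_lt_nhds (Int.lt_floor_add_one x)
  filter_upwards [h1, h2] with y hy hy2
  rw [abs_lt] at hy
  unfold pwave
  by_cases hxy : (⌊x⌋ : ℝ) ≤ y
  · have h3 : ⌊y⌋ = ⌊x⌋ := by
      rw [Int.floor_eq_iff]
      exact ⟨hxy, hy2⟩
    unfold Int.fract
    rw [h3]
  · push Not at hxy
    have hfx := Int.floor_le x
    have h3 : ⌊y⌋ = ⌊x⌋ - 1 := by
      rw [Int.floor_eq_iff]
      push_cast
      constructor <;> linarith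
    unfold Int.fract
    rw [h3, wave_eq_zero_of_far h (x := y - ((⌊x⌋ - 1 : ℤ) : ℝ)),
      wave_eq_zero_of_far h (x := y - (⌊x⌋ : ℝ))]
    · left; linarith
    · right; push_cast; linarith

theorem contDiff_pwave (h : ℕ → ℕ) (hh : ∀ m, h m ≤ 1) : ContDiff ℝ ∞ (pwave h) := by
  rw [contDiff_iff_contDiffAt]
  intro x
  refine ContDiffAt.congr_of_eventuallyEq ?_ (pwave_eventuallyEq h x)
  exact ((contDiff_wave h hh).comp (contDiff_id.sub contDiff_const)).contDiffAt

theorem pwave_pos_iff (h : ℕ → ℕ) (hh : ∀ m, h m ≤ 1) {n : ℕ} {x : ℝ}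
    (hx : |x - centre n| < 1 / 2 ^ (n + 5)) :
    0 < pwave h x ↔ ∃ j, h (Nat.pair n j) ≠ 0 := by
  have h1 : Int.fract x = x := by
    rw [Int.fract_eq_self]
    have h2 : (1 : ℝ) / 2 ^ (n + 5) ≤ 1 / 4 := by
      apply one_div_le_one_div_of_le (by norm_num)
      calc (4 : ℝ) = 2 ^ 2 := by norm_num
        _ ≤ 2 ^ (n + 5) := pow_le_pow_right₀ (by norm_num) (by omega)
    obtain ⟨h3, h4⟩ := centre_bounds n
    have h5 : (0 : ℝ) < 1 / 2 ^ (n + 2) := by positivity
    rw [abs_lt] at hx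
    constructor <;> linarith
  unfold pwave
  rw [h1]
  exact wave_pos_iff h hh hx

/-! ### Quantitative bounds -/

theorem profile_ge {y : ℝ} (h : |y| ≤ 1 / 2) : 1 / 8 ≤ profile y := by
  have h2 : y ^ 2 ≤ 1 / 4 := by
    rw [← sq_abs]
    have := abs_nonneg y
    nlinarith
  have hpos : 0 < 1 - y ^ 2 := by linarith
  unfold profile expNegInvGlue
  rw [if_neg (not_le.2 hpos)]
  have h3 : (1 - y ^ 2)⁻¹ ≤ 2 := by
    rw [inv_le_comm₀ hpos (by norm_num)]
    linarith
  have h4 : Real.exp (-2) ≤ Real.exp (-(1 - y ^ 2)⁻¹) := Real.exp_le_exp.2 (by linarith)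
  have h5 : Real.exp 2 ≤ 8 := by
    have h6 : Real.exp 2 = Real.exp 1 ^ 2 := by rw [← Real.exp_nat_mul]; norm_num
    rw [h6]
    have h7 := Real.exp_one_lt_d9
    have h8 := Real.exp_pos 1
    nlinarith
  have h6 : 1 / 8 ≤ Real.exp (-2) := by
    rw [Real.exp_neg, one_div]
    exact inv_anti₀ (Real.exp_pos 2) h5
  linarith

theorem fract_of_near {n : ℕ} {x : ℝ} (hx : |x - centre n| < 1 / 2 ^ (n + 5)) :
    Int.fract x = x := by
  rw [Int.fract_eq_self]
  have h2 : (1 : ℝ) / 2 ^ (n + 5) ≤ 1 / 4 := by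
    apply one_div_le_one_div_of_le (by norm_num)
    calc (4 : ℝ) = 2 ^ 2 := by norm_num
      _ ≤ 2 ^ (n + 5) := pow_le_pow_right₀ (by norm_num) (by omega)
  obtain ⟨h3, h4⟩ := centre_bounds n
  have h5 : (0 : ℝ) < 1 / 2 ^ (n + 2) := by positivity
  rw [abs_lt] at hx
  constructor <;> linarith

theorem near_of_half {n : ℕ} {x : ℝ} (hx : |x - centre n| < 1 / 2 ^ (n + 6)) :
    |x - centre n| < 1 / 2 ^ (n + 5) :=
  hx.trans_le (one_div_le_one_div_of_le (by positivity)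
    (pow_le_pow_right₀ (by norm_num) (by omega)))

theorem pwave_lower (h : ℕ → ℕ) (hh : ∀ m, h m ≤ 1) {n t : ℕ} {x : ℝ}
    (hx : |x - centre n| < 1 / 2 ^ (n + 6)) (ht : h (Nat.pair n t) = 1) :
    1 / 8 * (1 / 2 ^ ((Nat.pair n t + 4) ^ 2)) ≤ pwave h x := by
  have hx' := near_of_half hx
  unfold pwave
  rw [fract_of_near hx']
  have h1 : term h (Nat.pair n t) x ≤ wave h x := by
    unfold wave
    exact (summable_term h hh x).le_tsum _ (fun m _ => term_nonneg h m x)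
  refine le_trans ?_ h1
  unfold term
  rw [ht, Nat.unpair_pair]
  have h2 : 1 / 8 ≤ bump n x := by
    apply profile_ge
    rw [abs_mul, abs_of_pos (by positivity)]
    have hp : (0 : ℝ) < 2 ^ (n + 6) := by positivity
    rw [lt_div_iff₀ hp] at hx
    have e : (2 : ℝ) ^ (n + 6) = 2 * 2 ^ (n + 5) := by rw [pow_succ (2 : ℝ) (n + 5)]; ring
    rw [e] at hx
    show 2 ^ (n + 5) * |x - centre n| ≤ 1 / 2
    linarith
  push_cast
  rw [mul_comm (1 / 8 : ℝ)]
  gcongr

theorem pair_succ_le {n j t : ℕ} (h : t < j) : Nat.pair n (t + 1) ≤ Nat.pair n j := by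
  rcases Nat.lt_or_ge (t + 1) j with h1 | h1
  · exact (Nat.pair_lt_pair_right n h1).le
  · have : j = t + 1 := by omega
    rw [this]

theorem wave_le_of_zero (h : ℕ → ℕ) (hh : ∀ m, h m ≤ 1) (M : ℕ) (x : ℝ)
    (h0 : ∀ m < M, term h m x = 0) : wave h x ≤ 2 * (1 / 2 ^ ((M + 4) ^ 2)) := by
  have hs := summable_term h hh x
  have h1 := hs.sum_add_tsum_nat_add M
  rw [Finset.sum_eq_zero (fun m hm => h0 m (Finset.mem_range.1 hm)), zero_add] at h1
  have h2 : Summable fun m => term h (m + M) x := (summable_nat_add_iff M).2 hs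
  have h3 : Summable fun m => (1 / 2 ^ ((M + 4) ^ 2) : ℝ) * (1 / 2) ^ m :=
    (summable_geometric_of_lt_one (by norm_num) (by norm_num)).mul_left _
  have h4 : ∑' m, term h (m + M) x ≤ ∑' m, (1 / 2 ^ ((M + 4) ^ 2) : ℝ) * (1 / 2) ^ m := by
    refine h2.tsum_le_tsum (fun m => (term_le h hh (m + M) x).trans ?_) h3
    rw [one_div_pow, one_div_mul_one_div, ← pow_add]
    apply one_div_le_one_div_of_le (by positivity)
    apply pow_le_pow_right₀ (by norm_num)
    nlinarith [Nat.zero_le m, Nat.zero_le M]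
  have h5 : ∑' m, (1 / 2 ^ ((M + 4) ^ 2) : ℝ) * (1 / 2) ^ m = 2 * (1 / 2 ^ ((M + 4) ^ 2)) := by
    rw [tsum_mul_left, tsum_geometric_of_lt_one (by norm_num) (by norm_num)]
    norm_num
    ring
  unfold wave
  rw [← h1]
  linarith

theorem term_zero_of_lt (h : ℕ → ℕ) {n t : ℕ} {x : ℝ}
    (hx : |x - centre n| < 1 / 2 ^ (n + 5)) (ht : ∀ j ≤ t, h (Nat.pair n j) = 0)
    (m : ℕ) (hm : m < Nat.pair n (t + 1)) : term h m x = 0 := by
  by_cases hmn : m.unpair.1 = n
  · have h1 : h m = 0 := by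
      have h2 : m = Nat.pair n m.unpair.2 := by rw [← hmn, Nat.pair_unpair]
      rw [h2]
      apply ht
      by_contra hcon
      have h3 := pair_succ_le (n := n) (not_le.1 hcon)
      rw [← h2] at h3
      exact absurd h3 (not_le.2 hm)
    unfold term
    rw [h1]
    simp
  · unfold term
    rw [bump_eq_zero_of_near (Ne.symm hmn) hx]
    simp

theorem pwave_upper (h : ℕ → ℕ) (hh : ∀ m, h m ≤ 1) {n t : ℕ} {x : ℝ}
    (hx : |x - centre n| < 1 / 2 ^ (n + 5)) (ht : ∀ j ≤ t, h (Nat.pair n j) = 0) :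
    pwave h x ≤ 2 * (1 / 2 ^ ((Nat.pair n (t + 1) + 4) ^ 2)) := by
  unfold pwave
  rw [fract_of_near hx]
  exact wave_le_of_zero h hh _ x (term_zero_of_lt h hx ht)

end TuringEuler
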