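import Mathlib

/-!
# Definitions: Turing machines, universality, Euler flows on the flat torus, Turing completeness

The conventions on Turing machines are those of the problem file: finite state set with distinct
initial and halting states, finite alphabet with a blank, transition function with values in
`states × symbols × {-1, 0, 1}`, tapes bi-infinite with finitely many non-blank cells.

Maps on the flat torus `T³ = ℝ³/ℤ³` are represented by their lifts to `ℝ³`.
-/

namespace TuringEuler

/-- A Turing machine.  The states are `0, 1, …, states + 1`; the initial state is `0` and the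
halting state is `1`.  The symbols are `0, …, symbols`, and `0` is the blank.  The value
`δ q s = (q', s', ε)` means: in state `q` reading `s`, write `s'`, move the head by
`ε ∈ {-1, 0, 1}` and go to state `q'`. -/
structure Machine where
  states : ℕ
  symbols : ℕ
  δ : Fin (states + 2) → Fin (symbols + 1) →
    Fin (states + 2) × Fin (symbols + 1) × SignType

/-- A configuration `(q, l, r)`: the state `q`, the cells to the left of the head (the nearest
cell first), and the cells from the head on to the right (the scanned cell first).  All further
cells on both sides are blank. -/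
abbrev Machine.Config (T : Machine) : Type :=
  Fin (T.states + 2) × List (Fin (T.symbols + 1)) × List (Fin (T.symbols + 1))

/-- One step of the machine `T`; nothing changes any more once the state is the halting state. -/
def Machine.step (T : Machine) (c : T.Config) : T.Config :=
  if c.1 = 1 then c else
    match T.δ c.1 (c.2.2.headD 0) with
    | (q, a, SignType.zero) => (q, c.2.1, a :: c.2.2.tail)
    | (q, a, SignType.pos) => (q, a :: c.2.1, c.2.2.tail)
    | (q, a, SignType.neg) => (q, c.2.1.tail, c.2.1.headD 0 :: a :: c.2.2.tail)

/-- `T` halts on the configuration `c`: its run started at `c` reaches the halting state. -/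
def Machine.Halts (T : Machine) (c : T.Config) : Prop :=
  ∃ n : ℕ, (T.step^[n] c).1 = 1

/-- The number representing a head move. -/
def moveCode : SignType → ℕ
  | SignType.zero => 0
  | SignType.pos => 1
  | SignType.neg => 2

/-- Finite descriptions of a machine together with a configuration: a transition table and
a configuration, all entries being natural numbers. -/
abbrev Desc : Type := List (List (ℕ × ℕ × ℕ)) × ℕ × List ℕ × List ℕ

/-- The description of the pair (machine `T`, configuration `c`). -/
def Machine.describe (T : Machine) (c : T.Config) : Desc :=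
  (List.ofFn fun q => List.ofFn fun s =>
      ((T.δ q s).1.val, (T.δ q s).2.1.val, moveCode (T.δ q s).2.2),
    c.1.val, c.2.1.map Fin.val, c.2.2.map Fin.val)

/-- The machine `U` is universal: there is a computable map which sends (the description of)
each pair (machine `T`, configuration `c`) to an initial configuration of `U` on which `U` halts
if and only if `T` halts on `c`. -/
def Machine.IsUniversal (U : Machine) : Prop :=
  ∃ f : Desc → U.Config, Computable f ∧ ∀ (T : Machine) (c : T.Config),
    (f (T.describe c)).1 = 0 ∧ (T.Halts c ↔ U.Halts (f (T.describe c)))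

/-! ### Vector fields on the flat torus -/

open scoped ContDiff

/-- `ℝ³` with its Euclidean structure, the universal cover of the flat torus. -/
abbrev E3 : Type := EuclideanSpace ℝ (Fin 3)

/-- The flat torus `T³ = (ℝ/ℤ)³`. -/
abbrev T3 : Type := Fin 3 → UnitAddCircle

/-- The covering map `ℝ³ → T³`. -/
def toTorus (x : E3) : T3 := fun i => (x i : UnitAddCircle)

/-- `f` is (the lift to `ℝ³` of) a smooth map on `T³`. -/
def SmoothOnTorus {F : Type} [NormedAddCommGroup F] [NormedSpace ℝ F] (f : E3 → F) : Prop :=
  ContDiff ℝ ∞ f ∧ ∀ x y, toTorus x = toTorus y → f x = f y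

/-- The derivative `∂ⱼ Xᵢ` at the point `x`. -/
noncomputable def pderiv (j : Fin 3) (X : E3 → E3) (i : Fin 3) (x : E3) : ℝ :=
  fderiv ℝ X x (EuclideanSpace.single j 1) i

/-- `X` is a stationary Euler flow on the flat torus: a smooth field on `T³` with `div X = 0` and
`∇_X X = -∇p` for a smooth function `p` on `T³`. (The Levi-Civita connection of the flat metric is
the usual derivative.) -/
def IsStationaryEulerFlow (X : E3 → E3) : Prop :=
  SmoothOnTorus X ∧ (∀ x, ∑ i, pderiv i X i x = 0) ∧
    ∃ p : E3 → ℝ, SmoothOnTorus p ∧ ∀ x, fderiv ℝ X x (X x) = -gradient p x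

/-- The curl of a vector field. -/
noncomputable def curl (X : E3 → E3) (x : E3) : E3 :=
  !₂[pderiv 1 X 2 x - pderiv 2 X 1 x, pderiv 2 X 0 x - pderiv 0 X 2 x,
    pderiv 0 X 1 x - pderiv 1 X 0 x]

/-- `X` is a Beltrami field on `T³`: it is divergence free and `curl X = f X` for a smooth function
`f` on `T³`. -/
def IsBeltrami (X : E3 → E3) : Prop :=
  SmoothOnTorus X ∧ (∀ x, ∑ i, pderiv i X i x = 0) ∧
    ∃ f : E3 → ℝ, SmoothOnTorus f ∧ ∀ x, curl X x = f x • X x

/-- The forward orbit of `X` through the point `a` meets the set `U ⊆ T³`. -/
def OrbitMeets (X : E3 → E3) (a : E3) (U : Set T3) : Prop :=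
  ∃ γ : ℝ → E3, γ 0 = a ∧ (∀ t, HasDerivAt γ (X (γ t)) t) ∧ ∃ t, 0 ≤ t ∧ toTorus (γ t) ∈ U

/-- The forward orbit of `X` through the point `a` meets the set `U ⊆ T³` at some time at most
`τ`. -/
def OrbitMeetsBefore (X : E3 → E3) (a : E3) (U : Set T3) (τ : ℝ) : Prop :=
  ∃ γ : ℝ → E3, γ 0 = a ∧ (∀ t, HasDerivAt γ (X (γ t)) t) ∧
    ∃ t, 0 ≤ t ∧ t ≤ τ ∧ toTorus (γ t) ∈ U

/-- Codes of rational numbers: `(a, b, d)` stands for `(a - b) / (d + 1)`. -/
abbrev RatCode : Type := ℕ × ℕ × ℕ

/-- The rational number with a given code. -/
noncomputable def RatCode.val (q : RatCode) : ℝ := ((q.1 : ℝ) - q.2.1) / (q.2.2 + 1)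

/-- Codes of points with rational coordinates. -/
abbrev PointCode : Type := RatCode × RatCode × RatCode

/-- The point with a given code. -/
noncomputable def PointCode.val (q : PointCode) : E3 :=
  !₂[RatCode.val q.1, RatCode.val q.2.1, RatCode.val q.2.2]

/-- Codes of open boxes: the lower corner and the upper corner. -/
abbrev BoxCode : Type := PointCode × PointCode

/-- The open box with a given code. -/
def BoxCode.val (b : BoxCode) : Set E3 :=
  {x | ∀ i, PointCode.val b.1 i < x i ∧ x i < PointCode.val b.2 i}

/-- The open subset of `T³` given by a finite list of rational boxes. -/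
def openSet (V : List BoxCode) : Set T3 :=
  ⋃ b ∈ V, toTorus '' BoxCode.val b

/-- `X` is Turing complete: for some universal machine `U` there are computable maps sending each
initial configuration `c` to a point `p c` with rational coordinates and to an open set `V c`, a
finite union of rational boxes, such that `U` halts on `c` iff the forward orbit of `X` through
`p c` meets `V c`. -/
def IsTuringComplete (X : E3 → E3) : Prop :=
  ∃ U : Machine, U.IsUniversal ∧
    ∃ (p : U.Config → PointCode) (V : U.Config → List BoxCode), Computable p ∧ Computable V ∧
      ∀ c : U.Config, c.1 = 0 →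
        (U.Halts c ↔ OrbitMeets X (PointCode.val (p c)) (openSet (V c)))

/-- A robust, uniform and clocked form of Turing completeness: there are one fixed open set `V`, a
computable map sending each pair (machine `T`, configuration `c`) to a rational point and a rational
box around it, and a computable clock `F`, such that for every starting point `a` in that box
* `T` halts on `c` iff the forward orbit of `X` through `a` meets `V`, and, for every `n`,
* `T` started on `c` is in the halting state after `n` steps iff the forward orbit of `X` through
  `a` meets `V` within time `F c n`. -/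
def IsRobustlyTuringComplete (X : E3 → E3) : Prop :=
  ∃ (p : Desc → PointCode) (B : Desc → BoxCode) (F : Desc → ℕ → ℕ) (V : List BoxCode),
    Computable p ∧ Computable B ∧ Computable₂ F ∧ ∀ (T : Machine) (c : T.Config),
      PointCode.val (p (T.describe c)) ∈ BoxCode.val (B (T.describe c)) ∧
      ∀ a ∈ BoxCode.val (B (T.describe c)), (T.Halts c ↔ OrbitMeets X a (openSet V)) ∧
        ∀ n : ℕ, ((T.step^[n] c).1 = 1 ↔
          OrbitMeetsBefore X a (openSet V) (F (T.describe c) n))

/-- `X` is a computable vector field: its values at rational points can be computed to any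
precision, uniformly, and it has a Lipschitz constant (so a computable modulus of continuity). -/
def IsComputableField (X : E3 → E3) : Prop :=
  (∃ A : PointCode → ℕ → PointCode, Computable₂ A ∧
    ∀ q k, ‖X (PointCode.val q) - PointCode.val (A q k)‖ ≤ 1 / 2 ^ k) ∧
  ∃ L : ℕ, ∀ x y, ‖X x - X y‖ ≤ L * ‖x - y‖

end TuringEuler
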