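import Mathlib
import Pool.Agent.Lib.MP_e7e3bc_an.Defs

/-!
# A primitive recursive simulation of all Turing machines
-/

namespace TuringEuler

/-! ### A primitive recursive simulation of all machines, acting on descriptions -/

/-- Untyped configurations. -/
abbrev UConf : Type := ℕ × List ℕ × List ℕ

/-- One simulated step. -/
def ustep (tab : List (List (ℕ × ℕ × ℕ))) (c : UConf) : UConf :=
  if c.1 = 1 then c else
    let d := (tab.getD c.1 []).getD (c.2.2.headI) (0, 0, 0)
    if d.2.2 = 0 then (d.1, c.2.1, d.2.1 :: c.2.2.tail)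
    else if d.2.2 = 1 then (d.1, d.2.1 :: c.2.1, c.2.2.tail)
    else (d.1, c.2.1.tail, c.2.1.headI :: d.2.1 :: c.2.2.tail)

/-- The simulated machine has halted after `j` steps. -/
def uhalted (d : Desc) (j : ℕ) : Bool :=
  decide (((ustep d.1)^[j] d.2).1 = 1)

theorem primrec_ustep : Primrec₂ ustep := by
  unfold ustep
  have hc : Primrec fun p : List (List (ℕ × ℕ × ℕ)) × UConf => p.2 := Primrec.snd
  have hq : Primrec fun p : List (List (ℕ × ℕ × ℕ)) × UConf => p.2.1 := Primrec.fst.comp hc
  have hl : Primrec fun p : List (List (ℕ × ℕ × ℕ)) × UConf => p.2.2.1 :=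
    Primrec.fst.comp (Primrec.snd.comp hc)
  have hr : Primrec fun p : List (List (ℕ × ℕ × ℕ)) × UConf => p.2.2.2 :=
    Primrec.snd.comp (Primrec.snd.comp hc)
  have hrt : Primrec fun p : List (List (ℕ × ℕ × ℕ)) × UConf => p.2.2.2.tail :=
    Primrec.list_tail.comp hr
  have hrh : Primrec fun p : List (List (ℕ × ℕ × ℕ)) × UConf => p.2.2.2.headI :=
    Primrec.list_headI.comp hr
  have hlt : Primrec fun p : List (List (ℕ × ℕ × ℕ)) × UConf => p.2.2.1.tail :=
    Primrec.list_tail.comp hl
  have hlh : Primrec fun p : List (List (ℕ × ℕ × ℕ)) × UConf => p.2.2.1.headI :=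
    Primrec.list_headI.comp hl
  have hd : Primrec fun p : List (List (ℕ × ℕ × ℕ)) × UConf =>
      (p.1.getD p.2.1 []).getD (p.2.2.2.headI) (0, 0, 0) :=
    (Primrec.list_getD (0, 0, 0)).comp ((Primrec.list_getD []).comp Primrec.fst hq) hrh
  have hd1 := Primrec.fst.comp hd
  have hd2 := Primrec.fst.comp (Primrec.snd.comp hd)
  have hd3 := Primrec.snd.comp (Primrec.snd.comp hd)
  refine Primrec.ite (Primrec.eq.comp hq (Primrec.const 1)) hc ?_
  refine Primrec.ite (Primrec.eq.comp hd3 (Primrec.const 0))
    (Primrec.pair hd1 (Primrec.pair hl (Primrec.list_cons.comp hd2 hrt))) ?_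
  refine Primrec.ite (Primrec.eq.comp hd3 (Primrec.const 1))
    (Primrec.pair hd1 (Primrec.pair (Primrec.list_cons.comp hd2 hl) hrt)) ?_
  exact Primrec.pair hd1 (Primrec.pair hlt
    (Primrec.list_cons.comp hlh (Primrec.list_cons.comp hd2 hrt)))

theorem primrec_uhalted : Primrec₂ uhalted := by
  unfold uhalted
  have h1 : Primrec fun p : Desc × ℕ => ((ustep p.1.1)^[p.2] p.1.2) := by
    refine Primrec.nat_iterate (f := fun p : Desc × ℕ => p.2) (g := fun p : Desc × ℕ => p.1.2)
      (h := fun p c => ustep p.1.1 c) Primrec.snd (Primrec.snd.comp Primrec.fst) ?_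
    exact primrec_ustep.comp (Primrec.fst.comp (Primrec.fst.comp Primrec.fst)) Primrec.snd
  exact (Primrec.eq.comp (Primrec.fst.comp h1) (Primrec.const 1)).decide

/-- The untyped form of a configuration. -/
def Machine.uconf (T : Machine) (c : T.Config) : UConf :=
  (c.1.val, c.2.1.map Fin.val, c.2.2.map Fin.val)

theorem headI_map_val {n : ℕ} (l : List (Fin (n + 1))) :
    (l.map Fin.val).headI = (l.headD 0).val := by
  cases l <;> simp [List.headI]

theorem tail_map_val {n : ℕ} (l : List (Fin (n + 1))) :
    (l.map Fin.val).tail = l.tail.map Fin.val := by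
  cases l <;> simp

theorem getD_ofFn {α : Type*} {n : ℕ} (f : Fin n → α) (i : Fin n) (d : α) :
    (List.ofFn f).getD i.val d = f i := by
  simp [List.getD]

theorem ustep_halted (tab : List (List (ℕ × ℕ × ℕ))) (c : UConf) (h : c.1 = 1) :
    ustep tab c = c := if_pos h

theorem ustep_running (tab : List (List (ℕ × ℕ × ℕ))) (q : ℕ) (l r : List ℕ) (h : q ≠ 1)
    (d : ℕ × ℕ × ℕ) (hd : (tab.getD q []).getD r.headI (0, 0, 0) = d) :
    ustep tab (q, l, r) =
      if d.2.2 = 0 then (d.1, l, d.2.1 :: r.tail)
      else if d.2.2 = 1 then (d.1, d.2.1 :: l, r.tail)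
      else (d.1, l.tail, l.headI :: d.2.1 :: r.tail) := by
  subst hd
  exact if_neg h

theorem Machine.ustep_uconf (T : Machine) (c : T.Config) :
    ustep (T.describe c).1 (T.uconf c) = T.uconf (T.step c) := by
  obtain ⟨q, l, r⟩ := c
  by_cases hq : q = 1
  · subst hq
    rw [ustep_halted _ _ (by rfl)]
    congr 1
  · have hq' : q.val ≠ 1 := by
      intro h; apply hq; apply Fin.ext; simpa using h
    have hd : ((T.describe (q, l, r)).1.getD q.val []).getD
        (List.headI (List.map Fin.val r)) (0, 0, 0) =
        ((T.δ q (r.headD 0)).1.val, (T.δ q (r.headD 0)).2.1.val,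
          moveCode (T.δ q (r.headD 0)).2.2) := by
      rw [headI_map_val]
      unfold Machine.describe
      rw [getD_ofFn, getD_ofFn]
    have h1 := ustep_running (T.describe (q, l, r)).1 q.val (l.map Fin.val) (r.map Fin.val)
      hq' _ hd
    have h2 : T.uconf (q, l, r) = (q.val, l.map Fin.val, r.map Fin.val) := rfl
    rw [h2, h1]
    have h3 : T.step (q, l, r) = match T.δ q (r.headD 0) with
      | (q', a, SignType.zero) => (q', l, a :: r.tail)
      | (q', a, SignType.pos) => (q', a :: l, r.tail)
      | (q', a, SignType.neg) => (q', l.tail, l.headD 0 :: a :: r.tail) := if_neg hq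
    rw [h3, tail_map_val, tail_map_val, headI_map_val]
    rcases h : T.δ q (r.headD 0) with ⟨q', a, m⟩
    rcases m with _ | _ | _
    · rfl
    · rfl
    · rfl

theorem Machine.ustep_iterate (T : Machine) (c : T.Config) (n : ℕ) :
    (ustep (T.describe c).1)^[n] (T.uconf c) = T.uconf (T.step^[n] c) := by
  induction n with
  | zero => rfl
  | succ n ih =>
    rw [Function.iterate_succ_apply', Function.iterate_succ_apply', ih]
    exact T.ustep_uconf _

theorem Machine.state_iff (T : Machine) (c : T.Config) (j : ℕ) :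
    (T.step^[j] c).1 = 1 ↔ uhalted (T.describe c) j = true := by
  have h : (ustep (T.describe c).1)^[j] (T.describe c).2 = T.uconf (T.step^[j] c) :=
    T.ustep_iterate c j
  have h2 : uhalted (T.describe c) j = decide ((T.uconf (T.step^[j] c)).1 = 1) := by
    unfold uhalted
    simp only [h]
  rw [h2]
  constructor
  · intro h
    apply decide_eq_true
    show ((T.step^[j] c).1).val = 1
    rw [h]; rfl
  · intro h
    have h4 : ((T.step^[j] c).1).val = 1 := of_decide_eq_true h
    apply Fin.ext; simpa using h4

theorem Machine.halts_iff (T : Machine) (c : T.Config) :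
    T.Halts c ↔ ∃ j, uhalted (T.describe c) j = true :=
  exists_congr fun j => T.state_iff c j

theorem Machine.step_halted (T : Machine) (c : T.Config) (h : c.1 = 1) : T.step c = c :=
  if_pos h

/-- Once the halting state is reached, it is never left. -/
theorem Machine.halted_mono (T : Machine) (c : T.Config) {j n : ℕ} (hjn : j ≤ n)
    (h : (T.step^[j] c).1 = 1) : (T.step^[n] c).1 = 1 := by
  induction n, hjn using Nat.le_induction with
  | base => exact h
  | succ n _ ih =>
    rw [Function.iterate_succ_apply', T.step_halted _ ih]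
    exact ih

end TuringEuler
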