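import Mathlib
import Pool.Agent.Lib.MP_e7e3bc_an.Machine
import Pool.Agent.Lib.MP_e7e3bc_an.Bump

/-!
# Computable approximations of the periodic function `pwave`
-/

namespace TuringEuler

/-! ### Rational approximation of `exp (-y)` -/

theorem exp_approx {y : ℝ} (hy : 0 ≤ y) {N : ℕ} (hN : 0 < N) (hyN : y ≤ N) :
    Real.exp (-y) ≤ ((1 + y / N) ^ N)⁻¹ ∧ ((1 + y / N) ^ N)⁻¹ ≤ Real.exp (-y) + y ^ 2 / N := by
  have hN' : (0 : ℝ) < N := by exact_mod_cast hN
  set t : ℝ := y / N with ht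
  have ht0 : 0 ≤ t := div_nonneg hy hN'.le
  have ht1 : t ≤ 1 := by rw [ht, div_le_one hN']; exact hyN
  have hyt : y = t * N := by rw [ht]; field_simp
  have hpos : (0 : ℝ) < (1 + t) ^ N := by positivity
  constructor
  · rw [Real.exp_neg]
    apply inv_anti₀ hpos
    have h1 : 1 + t ≤ Real.exp t := by linarith [Real.add_one_le_exp t]
    calc (1 + t) ^ N ≤ (Real.exp t) ^ N := pow_le_pow_left₀ (by linarith) h1 N
      _ = Real.exp y := by rw [← Real.exp_nat_mul, hyt]; ring_nf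
  · have h1 : 1 - t ≤ Real.exp (-t) := by linarith [Real.add_one_le_exp (-t)]
    have h2 : (1 - t) ^ N ≤ Real.exp (-y) := by
      calc (1 - t) ^ N ≤ (Real.exp (-t)) ^ N := pow_le_pow_left₀ (by linarith) h1 N
        _ = Real.exp (-y) := by rw [← Real.exp_nat_mul, hyt]; ring_nf
    have h3 : 1 + (N : ℝ) * (-(t ^ 2)) ≤ (1 + (-(t ^ 2))) ^ N :=
      one_add_mul_le_pow (by nlinarith) N
    have h4 : (1 + (-(t ^ 2))) ^ N = (1 + t) ^ N * (1 - t) ^ N := by
      rw [← mul_pow]; ring_nf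
    have h5 : ((1 + t) ^ N)⁻¹ ≤ 1 := by
      apply inv_le_one_of_one_le₀
      exact one_le_pow₀ (by linarith)
    have h6 : ((1 + t) ^ N)⁻¹ * (1 - (1 + t) ^ N * (1 - t) ^ N) ≤ 1 * (N * t ^ 2) := by
      have h7 : 1 - (1 + t) ^ N * (1 - t) ^ N ≤ N * t ^ 2 := by
        rw [← h4]; linarith
      have h8 : 0 ≤ (N : ℝ) * t ^ 2 := by positivity
      calc ((1 + t) ^ N)⁻¹ * (1 - (1 + t) ^ N * (1 - t) ^ N) ≤ ((1 + t) ^ N)⁻¹ * (N * t ^ 2) := by
            gcongr
        _ ≤ 1 * (N * t ^ 2) := by gcongr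
    have h9 : ((1 + t) ^ N)⁻¹ * (1 - (1 + t) ^ N * (1 - t) ^ N) = ((1 + t) ^ N)⁻¹ - (1 - t) ^ N := by
      field_simp
    have h10 : y ^ 2 / N = N * t ^ 2 := by rw [hyt]; field_simp
    rw [h10]
    rw [h9] at h6
    linarith

/-! ### The approximating natural numbers -/

/-- `1 - y²` for `y = 2 ^ (n + 5) * (r / D - centre n)` is `zed n r D / D ^ 2` when positive. -/
def zed (n r D : ℕ) : ℕ :=
  D ^ 2 - ((2 ^ (n + 5) * r - (2 ^ (n + 3) + 8) * D) +
    ((2 ^ (n + 3) + 8) * D - 2 ^ (n + 5) * r)) ^ 2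

/-- The exponent in the rational approximation of the exponential. -/
def expo (D K : ℕ) : ℕ := D ^ 4 * 2 ^ K

/-- `2 ^ K` times the `m`-th term of the series at the point `r / D`, approximately. -/
def termApprox (h : ℕ → ℕ) (r D K m : ℕ) : ℕ :=
  h m * ((2 ^ K * (zed m.unpair.1 r D * expo D K) ^ expo D K) /
    (2 ^ ((m + 4) ^ 2) * (zed m.unpair.1 r D * expo D K + D ^ 2) ^ expo D K))

/-- `2 ^ K` times the sum of the first `M` terms, approximately. -/
def sumApprox (h : ℕ → ℕ) (r D K : ℕ) : ℕ → ℕ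
  | 0 => 0
  | M + 1 => sumApprox h r D K M + termApprox h r D K M

theorem abs_sub_sq (a b : ℕ) : (((a - b) + (b - a) : ℕ) : ℝ) ^ 2 = ((a : ℝ) - b) ^ 2 := by
  rcases le_total a b with h | h
  · rw [Nat.sub_eq_zero_of_le h]
    push_cast [Nat.cast_sub h]
    ring
  · rw [Nat.sub_eq_zero_of_le h]
    push_cast [Nat.cast_sub h]
    ring

theorem scaled_eq (n r D : ℕ) (hD : 0 < D) :
    (2 : ℝ) ^ (n + 5) * ((r : ℝ) / D - centre n) =
      ((2 ^ (n + 5) * r : ℕ) - ((2 ^ (n + 3) + 8) * D : ℕ) : ℝ) / D := by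
  have hD' : (D : ℝ) ≠ 0 := by exact_mod_cast hD.ne'
  unfold centre
  push_cast
  have e1 : (2 : ℝ) ^ (n + 5) = 32 * 2 ^ n := by rw [pow_add]; norm_num; ring
  have e2 : (2 : ℝ) ^ (n + 3) = 8 * 2 ^ n := by rw [pow_add]; norm_num; ring
  have e3 : (2 : ℝ) ^ (n + 2) = 4 * 2 ^ n := by rw [pow_add]; norm_num; ring
  rw [e1, e2, e3]
  have h2n : (2 : ℝ) ^ n ≠ 0 := by positivity
  field_simp
  ring

theorem zed_cast (n r D : ℕ) (hD : 0 < D) (hz : zed n r D ≠ 0) :
    1 - ((2 : ℝ) ^ (n + 5) * ((r : ℝ) / D - centre n)) ^ 2 = (zed n r D : ℝ) / D ^ 2 := by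
  have hD' : (D : ℝ) ≠ 0 := by exact_mod_cast hD.ne'
  rw [scaled_eq n r D hD]
  unfold zed at hz ⊢
  have hle : ((2 ^ (n + 5) * r - (2 ^ (n + 3) + 8) * D) +
    ((2 ^ (n + 3) + 8) * D - 2 ^ (n + 5) * r)) ^ 2 ≤ D ^ 2 := by
    by_contra h
    exact hz (Nat.sub_eq_zero_of_le (not_le.1 h).le)
  rw [Nat.cast_sub hle, Nat.cast_pow, Nat.cast_pow, abs_sub_sq, div_pow]
  field_simp

theorem zed_zero (n r D : ℕ) (hD : 0 < D) (hz : zed n r D = 0) :
    1 - ((2 : ℝ) ^ (n + 5) * ((r : ℝ) / D - centre n)) ^ 2 ≤ 0 := by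
  have hD' : (0 : ℝ) < D := by exact_mod_cast hD
  rw [scaled_eq n r D hD]
  unfold zed at hz
  have hle := Nat.sub_eq_zero_iff_le.1 hz
  have h2 : ((D ^ 2 : ℕ) : ℝ) ≤ ((((2 ^ (n + 5) * r - (2 ^ (n + 3) + 8) * D) +
    ((2 ^ (n + 3) + 8) * D - 2 ^ (n + 5) * r)) ^ 2 : ℕ) : ℝ) := by exact_mod_cast hle
  rw [Nat.cast_pow, Nat.cast_pow, abs_sub_sq] at h2
  rw [div_pow, sub_nonpos, le_div_iff₀ (by positivity)]
  linarith

theorem bump_approx (n r D K : ℕ) (hD : 0 < D) :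
    bump n ((r : ℝ) / D) ≤
      ((zed n r D : ℝ) * expo D K) ^ expo D K / (zed n r D * expo D K + D ^ 2) ^ expo D K ∧
    ((zed n r D : ℝ) * expo D K) ^ expo D K / (zed n r D * expo D K + D ^ 2) ^ expo D K ≤
      bump n ((r : ℝ) / D) + 1 / 2 ^ K := by
  have hDr : (1 : ℝ) ≤ D := by exact_mod_cast hD
  have hE : 0 < expo D K := by unfold expo; positivity
  have hE' : (0 : ℝ) < expo D K := by exact_mod_cast hE
  by_cases hz : zed n r D = 0
  · have h0 : bump n ((r : ℝ) / D) = 0 := by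
      unfold bump profile
      exact expNegInvGlue.zero_of_nonpos (zed_zero n r D hD hz)
    rw [h0, hz]
    simp only [Nat.cast_zero, zero_mul, zero_pow hE.ne', zero_div]
    constructor
    · exact le_rfl
    · positivity
  · have hz1 : (1 : ℝ) ≤ zed n r D := by exact_mod_cast Nat.one_le_iff_ne_zero.2 hz
    have h1 := zed_cast n r D hD hz
    set y : ℝ := (D : ℝ) ^ 2 / zed n r D with hy
    have hy0 : 0 ≤ y := by positivity
    have hyD : y ≤ (D : ℝ) ^ 2 := div_le_self (by positivity) hz1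
    have hb : bump n ((r : ℝ) / D) = Real.exp (-y) := by
      unfold bump profile expNegInvGlue
      rw [if_neg, h1, inv_div]
      rw [h1, not_le]
      positivity
    have hEc : (expo D K : ℝ) = (D : ℝ) ^ 4 * 2 ^ K := by unfold expo; push_cast; ring
    have hyE : y ≤ expo D K := by
      rw [hEc]
      have h2K : (1 : ℝ) ≤ 2 ^ K := one_le_pow₀ (by norm_num)
      calc y ≤ (D : ℝ) ^ 2 := hyD
        _ ≤ (D : ℝ) ^ 4 := pow_le_pow_right₀ hDr (by norm_num)
        _ = (D : ℝ) ^ 4 * 1 := by ring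
        _ ≤ (D : ℝ) ^ 4 * 2 ^ K := by gcongr
    obtain ⟨h2, h3⟩ := exp_approx hy0 hE hyE
    have h4 : ((1 + y / expo D K) ^ expo D K)⁻¹ =
        ((zed n r D : ℝ) * expo D K) ^ expo D K / (zed n r D * expo D K + D ^ 2) ^ expo D K := by
      rw [← div_pow, ← inv_pow]
      congr 1
      rw [hy]
      field_simp
    rw [hb, ← h4]
    refine ⟨h2, h3.trans ?_⟩
    have h5 : y ^ 2 / expo D K ≤ 1 / 2 ^ K := by
      rw [hEc]
      have h6 : y ^ 2 ≤ (D : ℝ) ^ 4 := by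
        calc y ^ 2 ≤ ((D : ℝ) ^ 2) ^ 2 := pow_le_pow_left₀ hy0 hyD 2
          _ = (D : ℝ) ^ 4 := by ring
      rw [div_le_div_iff₀ (by positivity) (by positivity)]
      nlinarith [show (0 : ℝ) < 2 ^ K by positivity]
    linarith

theorem termApprox_spec (h : ℕ → ℕ) (hh : ∀ m, h m ≤ 1) (r D K m : ℕ) (hD : 0 < D) :
    |(termApprox h r D K m : ℝ) / 2 ^ K - term h m ((r : ℝ) / D)| ≤ 1 / 2 ^ K := by
  rcases Nat.le_one_iff_eq_zero_or_eq_one.1 (hh m) with h0 | h1
  · simp [termApprox, term, h0]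
  · obtain ⟨h2, h3⟩ := bump_approx m.unpair.1 r D K hD
    unfold termApprox term
    rw [h1]
    set n := m.unpair.1
    set E := expo D K
    set A : ℕ := 2 ^ K * (zed n r D * E) ^ E with hA
    set B : ℕ := 2 ^ ((m + 4) ^ 2) * (zed n r D * E + D ^ 2) ^ E with hB
    have hBpos : 0 < B := by positivity
    have hB' : (0 : ℝ) < B := by exact_mod_cast hBpos
    have h2K : (0 : ℝ) < 2 ^ K := by positivity
    have h2m : (1 : ℝ) ≤ 2 ^ ((m + 4) ^ 2) := one_le_pow₀ (by norm_num)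
    have h4 : ((A / B : ℕ) : ℝ) ≤ (A : ℝ) / B := Nat.cast_div_le
    have h5 : (A : ℝ) / B < ((A / B : ℕ) : ℝ) + 1 := by
      rw [div_lt_iff₀ hB']
      have := Nat.lt_div_mul_add (a := A) hBpos
      have h6 : (A : ℝ) < (A / B : ℕ) * B + B := by exact_mod_cast this
      linarith
    set Q : ℝ := ((zed n r D : ℝ) * E) ^ E / (zed n r D * E + D ^ 2) ^ E with hQ
    have h7 : (A : ℝ) / B = 2 ^ K * (Q / 2 ^ ((m + 4) ^ 2)) := by
      rw [hA, hB, hQ]
      push_cast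
      have : ((zed n r D : ℝ) * E + D ^ 2) ^ E ≠ 0 := by
        have : (0 : ℝ) < D := by exact_mod_cast hD
        positivity
      field_simp
    have h8 : Q / 2 ^ ((m + 4) ^ 2) ≤ bump n ((r : ℝ) / D) / 2 ^ ((m + 4) ^ 2) + 1 / 2 ^ K := by
      have h9 : (1 / 2 ^ K : ℝ) / 2 ^ ((m + 4) ^ 2) ≤ 1 / 2 ^ K := div_le_self (by positivity) h2m
      calc Q / 2 ^ ((m + 4) ^ 2) ≤ (bump n ((r : ℝ) / D) + 1 / 2 ^ K) / 2 ^ ((m + 4) ^ 2) := by gcongr
        _ = bump n ((r : ℝ) / D) / 2 ^ ((m + 4) ^ 2) + (1 / 2 ^ K) / 2 ^ ((m + 4) ^ 2) := by ring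
        _ ≤ _ := by linarith
    have h10 : bump n ((r : ℝ) / D) / 2 ^ ((m + 4) ^ 2) ≤ Q / 2 ^ ((m + 4) ^ 2) := by gcongr
    rw [h7] at h4 h5
    have h11 : ((A / B : ℕ) : ℝ) / 2 ^ K ≤ Q / 2 ^ ((m + 4) ^ 2) := by
      rw [div_le_iff₀ h2K]; linarith
    have h12 : Q / 2 ^ ((m + 4) ^ 2) ≤ ((A / B : ℕ) : ℝ) / 2 ^ K + 1 / 2 ^ K := by
      rw [← add_div, le_div_iff₀ h2K]; linarith
    rw [abs_le]
    push_cast
    constructor
    · rw [one_mul, one_div_mul_eq_div]; linarith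
    · rw [one_mul, one_div_mul_eq_div]; linarith

theorem sumApprox_spec (h : ℕ → ℕ) (hh : ∀ m, h m ≤ 1) (r D K M : ℕ) (hD : 0 < D) :
    |(sumApprox h r D K M : ℝ) / 2 ^ K - ∑ m ∈ Finset.range M, term h m ((r : ℝ) / D)| ≤
      M * (1 / 2 ^ K) := by
  induction M with
  | zero => simp [sumApprox]
  | succ M ih =>
    rw [Finset.sum_range_succ, sumApprox]
    push_cast
    have h1 := termApprox_spec h hh r D K M hD
    have h2 : ((sumApprox h r D K M : ℝ) + termApprox h r D K M) / 2 ^ K -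
        (∑ m ∈ Finset.range M, term h m ((r : ℝ) / D) + term h M ((r : ℝ) / D)) =
        ((sumApprox h r D K M : ℝ) / 2 ^ K - ∑ m ∈ Finset.range M, term h m ((r : ℝ) / D)) +
        ((termApprox h r D K M : ℝ) / 2 ^ K - term h M ((r : ℝ) / D)) := by ring
    rw [h2]
    refine (abs_add_le _ _).trans ?_
    linarith

theorem wave_tail (h : ℕ → ℕ) (hh : ∀ m, h m ≤ 1) (x : ℝ) (M : ℕ) :
    |(∑ m ∈ Finset.range M, term h m x) - wave h x| ≤ 2 * (1 / 2) ^ M := by
  have hs := summable_term h hh x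
  have h1 := hs.sum_add_tsum_nat_add M
  have h2 : Summable fun m => term h (m + M) x := (summable_nat_add_iff M).2 hs
  have h3 : Summable fun m => (1 / 2 : ℝ) ^ (m + M) :=
    (summable_nat_add_iff M).2 (summable_geometric_of_lt_one (by norm_num) (by norm_num))
  have h4 : ∑' m, term h (m + M) x ≤ ∑' m, (1 / 2 : ℝ) ^ (m + M) :=
    h2.tsum_le_tsum (fun m => term_le' h hh (m + M) x) h3
  have h5 : ∑' m, (1 / 2 : ℝ) ^ (m + M) = 2 * (1 / 2) ^ M := by
    simp_rw [pow_add]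
    rw [tsum_mul_right, tsum_geometric_of_lt_one (by norm_num) (by norm_num)]
    norm_num
  have h6 : 0 ≤ ∑' m, term h (m + M) x := tsum_nonneg fun m => term_nonneg h _ x
  unfold wave
  rw [abs_le]
  constructor <;> linarith

theorem wave_approx (h : ℕ → ℕ) (hh : ∀ m, h m ≤ 1) (r D K : ℕ) (hD : 0 < D) :
    |(sumApprox h r D K K : ℝ) / 2 ^ K - wave h ((r : ℝ) / D)| ≤ (K + 2) * (1 / 2 ^ K) := by
  have h1 := sumApprox_spec h hh r D K K hD
  have h2 := wave_tail h hh ((r : ℝ) / D) K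
  have h3 : (1 / 2 : ℝ) ^ K = 1 / 2 ^ K := by rw [one_div_pow]
  rw [h3] at h2
  have h4 : (sumApprox h r D K K : ℝ) / 2 ^ K - wave h ((r : ℝ) / D) =
    ((sumApprox h r D K K : ℝ) / 2 ^ K - ∑ m ∈ Finset.range K, term h m ((r : ℝ) / D)) +
    ((∑ m ∈ Finset.range K, term h m ((r : ℝ) / D)) - wave h ((r : ℝ) / D)) := by ring
  rw [h4]
  refine (abs_add_le _ _).trans ?_
  linarith

/-! ### Primitive recursiveness -/

theorem primrec_pow : Primrec₂ ((· ^ ·) : ℕ → ℕ → ℕ) :=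
  Primrec₂.unpaired'.1 Nat.Primrec.pow

section

variable {α : Type} [Primcodable α]

theorem primrec_zed {n r D : α → ℕ} (hn : Primrec n) (hr : Primrec r) (hD : Primrec D) :
    Primrec fun a => zed (n a) (r a) (D a) := by
  unfold zed
  have c : ∀ k : ℕ, Primrec fun _ : α => k := fun k => Primrec.const k
  have h1 : Primrec fun a => 2 ^ (n a + 5) * r a :=
    Primrec.nat_mul.comp (primrec_pow.comp (c 2) (Primrec.nat_add.comp hn (c 5))) hr
  have h2 : Primrec fun a => (2 ^ (n a + 3) + 8) * D a :=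
    Primrec.nat_mul.comp (Primrec.nat_add.comp
      (primrec_pow.comp (c 2) (Primrec.nat_add.comp hn (c 3))) (c 8)) hD
  exact Primrec.nat_sub.comp (primrec_pow.comp hD (c 2)) (primrec_pow.comp
    (Primrec.nat_add.comp (Primrec.nat_sub.comp h1 h2) (Primrec.nat_sub.comp h2 h1)) (c 2))

theorem primrec_expo {D K : α → ℕ} (hD : Primrec D) (hK : Primrec K) :
    Primrec fun a => expo (D a) (K a) := by
  unfold expo
  exact Primrec.nat_mul.comp (primrec_pow.comp hD (Primrec.const 4))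
    (primrec_pow.comp (Primrec.const 2) hK)

theorem primrec_termApprox {h : ℕ → ℕ} (hh : Primrec h) {r D K m : α → ℕ} (hr : Primrec r)
    (hD : Primrec D) (hK : Primrec K) (hm : Primrec m) :
    Primrec fun a => termApprox h (r a) (D a) (K a) (m a) := by
  unfold termApprox
  have hz := primrec_zed (Primrec.fst.comp (Primrec.unpair.comp hm)) hr hD
  have he := primrec_expo hD hK
  have hze := Primrec.nat_mul.comp hz he
  exact Primrec.nat_mul.comp (hh.comp hm) (Primrec.nat_div.comp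
    (Primrec.nat_mul.comp (primrec_pow.comp (Primrec.const 2) hK) (primrec_pow.comp hze he))
    (Primrec.nat_mul.comp (primrec_pow.comp (Primrec.const 2)
      (primrec_pow.comp (Primrec.nat_add.comp hm (Primrec.const 4)) (Primrec.const 2)))
      (primrec_pow.comp (Primrec.nat_add.comp hze (primrec_pow.comp hD (Primrec.const 2))) he)))

theorem sumApprox_eq_rec (h : ℕ → ℕ) (r D K M : ℕ) :
    sumApprox h r D K M = Nat.rec (motive := fun _ => ℕ) 0
      (fun m acc => acc + termApprox h r D K m) M := by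
  induction M with
  | zero => rfl
  | succ M ih => simp only [sumApprox, ih]

theorem primrec_sumApprox {h : ℕ → ℕ} (hh : Primrec h) {r D K : α → ℕ} (hr : Primrec r)
    (hD : Primrec D) (hK : Primrec K) :
    Primrec fun a => sumApprox h (r a) (D a) (K a) (K a) := by
  have h1 : (fun a => sumApprox h (r a) (D a) (K a) (K a)) = fun a =>
      Nat.rec (motive := fun _ => ℕ) 0
      (fun m acc => acc + termApprox h (r a) (D a) (K a) m) (K a) := by
    funext a; exact sumApprox_eq_rec _ _ _ _ _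
  rw [h1]
  refine Primrec.nat_rec' (f := K) (g := fun _ => 0)
    (h := fun a p => p.2 + termApprox h (r a) (D a) (K a) p.1) hK (Primrec.const 0) ?_
  have hp : Primrec fun q : α × (ℕ × ℕ) => q.2.1 := Primrec.fst.comp Primrec.snd
  exact Primrec.nat_add.comp (Primrec.snd.comp Primrec.snd)
    (primrec_termApprox hh (hr.comp Primrec.fst) (hD.comp Primrec.fst) (hK.comp Primrec.fst) hp)

end

end TuringEuler
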