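import Mathlib
import Pool.Agent.Lib.MP_e7e3bc_an.Defs

/-!
# Sanity checks for the definitions
-/

namespace TuringEuler

/-! ### Sanity checks -/

theorem continuous_toTorus : Continuous toTorus := by
  unfold toTorus
  fun_prop

theorem isOpenMap_toTorus : IsOpenMap toTorus := by
  have h1 : IsOpenMap (fun (x : Fin 3 → ℝ) (i : Fin 3) => (x i : UnitAddCircle)) :=
    IsOpenMap.piMap (fun i => QuotientAddGroup.isOpenMap_coe) (by simp)
  exact h1.comp (PiLp.homeomorph 2 (fun _ : Fin 3 => ℝ)).isOpenMap

theorem isOpen_box (b : BoxCode) : IsOpen (BoxCode.val b) := by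
  have h : BoxCode.val b = ⋂ i : Fin 3, {x : E3 | PointCode.val b.1 i < x i ∧
      x i < PointCode.val b.2 i} := by
    ext x; simp [BoxCode.val]
  rw [h]
  refine isOpen_iInter_of_finite fun i => ?_
  have hc : Continuous fun x : E3 => x i := (EuclideanSpace.proj (𝕜 := ℝ) i).continuous
  exact IsOpen.inter (isOpen_lt continuous_const hc) (isOpen_lt hc continuous_const)

/-- The sets `openSet V` are open in `T³`. -/
theorem isOpen_openSet (V : List BoxCode) : IsOpen (openSet V) :=
  isOpen_iUnion fun b => isOpen_iUnion fun _ => isOpenMap_toTorus _ (isOpen_box b)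

end TuringEuler
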