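import Mathlib
import Pool.Agent.Lib.MP_e7e3bc_an.Machine

/-!
# From Post-Turing machines with finite support to machines in the sense of `Machine`
-/

namespace TuringEuler

open Turing StateTransition

/-- The step function attached to a transition function, written without `Machine`. -/
def rawStep {N m : ℕ} (δ : Fin (N + 2) → Fin (m + 1) → Fin (N + 2) × Fin (m + 1) × SignType)
    (c : Fin (N + 2) × List (Fin (m + 1)) × List (Fin (m + 1))) :
    Fin (N + 2) × List (Fin (m + 1)) × List (Fin (m + 1)) :=
  if c.1 = 1 then c else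
    match δ c.1 (c.2.2.headD 0) with
    | (q, a, SignType.zero) => (q, c.2.1, a :: c.2.2.tail)
    | (q, a, SignType.pos) => (q, a :: c.2.1, c.2.2.tail)
    | (q, a, SignType.neg) => (q, c.2.1.tail, c.2.1.headD 0 :: a :: c.2.2.tail)

theorem Machine.step_eq_rawStep (T : Machine) : T.step = rawStep T.δ := by
  funext c
  unfold Machine.step rawStep
  split_ifs with h
  · rfl
  · rcases T.δ c.1 (c.2.2.headD 0) with ⟨q, a, _ | _ | _⟩ <;> rfl

theorem rawStep_running {N m : ℕ}
    (δ : Fin (N + 2) → Fin (m + 1) → Fin (N + 2) × Fin (m + 1) × SignType)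
    (q : Fin (N + 2)) (l r : List (Fin (m + 1))) (hq : q ≠ 1) :
    rawStep δ (q, l, r) = match δ q (r.headD 0) with
    | (q', a, SignType.zero) => (q', l, a :: r.tail)
    | (q', a, SignType.pos) => (q', a :: l, r.tail)
    | (q', a, SignType.neg) => (q', l.tail, l.headD 0 :: a :: r.tail) := if_neg hq

section

variable {Γ Λ : Type} [Inhabited Γ] [Inhabited Λ]
variable (M : Turing.TM0.Machine Γ Λ) {N m : ℕ}
variable (decQ : Fin (N + 2) → Λ) (encQ : Λ → Fin (N + 2))
variable (decG : Fin (m + 1) → Γ) (encG : Γ → Fin (m + 1))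

/-- The transition attached to an instruction of a Post-Turing machine. -/
def postInstr (s : Fin (m + 1)) :
    Option (Λ × Turing.TM0.Stmt Γ) → Fin (N + 2) × Fin (m + 1) × SignType
  | none => (1, s, SignType.zero)
  | some (q', Turing.TM0.Stmt.move Turing.Dir.left) => (encQ q', s, SignType.neg)
  | some (q', Turing.TM0.Stmt.move Turing.Dir.right) => (encQ q', s, SignType.pos)
  | some (q', Turing.TM0.Stmt.write a) => (encQ q', encG a, SignType.zero)

/-- The transition function obtained from a Post-Turing machine. -/
def postDelta (q : Fin (N + 2)) (s : Fin (m + 1)) : Fin (N + 2) × Fin (m + 1) × SignType :=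
  postInstr encQ encG s (M (decQ q) (decG s))

/-- The Post-Turing configuration represented by a configuration. -/
def postCfg (c : Fin (N + 2) × List (Fin (m + 1)) × List (Fin (m + 1))) :
    Turing.TM0.Cfg Γ Λ :=
  ⟨decQ c.1, Turing.Tape.mk' (Turing.ListBlank.mk (c.2.1.map decG))
    (Turing.ListBlank.mk (c.2.2.map decG))⟩

variable (S : Finset Λ) (hS : Turing.TM0.Supports M ↑S)
variable (hdQ : ∀ q ∈ S, decQ (encQ q) = q) (heQ : ∀ q, encQ q ≠ 1)
variable (hdG : ∀ a, decG (encG a) = a) (hd0 : decG 0 = default)

include hd0 in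
theorem headI_map_decG (l : List (Fin (m + 1))) :
    (l.map decG).headI = decG (l.headD 0) := by
  cases l with
  | nil => simp [List.headI, hd0]
  | cons a l => simp [List.headI]

omit [Inhabited Γ] in
theorem tail_map_decG (l : List (Fin (m + 1))) :
    (l.map decG).tail = l.tail.map decG := by
  cases l <;> rfl

include hd0 in
theorem post_step (q : Fin (N + 2)) (l r : List (Fin (m + 1))) :
    Turing.TM0.step M (postCfg decQ decG (q, l, r)) =
      (M (decQ q) (decG (r.headD 0))).map fun x ↦ ⟨x.1, match x.2 with
        | Turing.TM0.Stmt.move d => (Turing.Tape.mk' (Turing.ListBlank.mk (l.map decG))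
            (Turing.ListBlank.mk (r.map decG))).move d
        | Turing.TM0.Stmt.write a => (Turing.Tape.mk' (Turing.ListBlank.mk (l.map decG))
            (Turing.ListBlank.mk (r.map decG))).write a⟩ := by
  simp only [postCfg, Turing.TM0.step, Turing.Tape.mk'_head, Turing.ListBlank.head_mk]
  rw [headI_map_decG decG hd0]
  rfl

include hd0 in
theorem post_step_none (q : Fin (N + 2)) (l r : List (Fin (m + 1))) (hq : q ≠ 1)
    (h : M (decQ q) (decG (r.headD 0)) = none) :
    Turing.TM0.step M (postCfg decQ decG (q, l, r)) = none ∧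
      (rawStep (postDelta M decQ encQ decG encG) (q, l, r)).1 = 1 := by
  constructor
  · rw [post_step M decQ decG hd0, h]
    rfl
  · have h2 : postDelta M decQ encQ decG encG q (r.headD 0) =
        (1, r.headD 0, SignType.zero) := by
      unfold postDelta
      rw [h]
      rfl
    rw [rawStep_running _ _ _ _ hq, h2]

include hS hdQ heQ hdG hd0 in
theorem post_step_some (q : Fin (N + 2)) (l r : List (Fin (m + 1))) (hq : q ≠ 1)
    (hqS : decQ q ∈ S) (x : Λ × Turing.TM0.Stmt Γ)
    (h : M (decQ q) (decG (r.headD 0)) = some x) :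
    Turing.TM0.step M (postCfg decQ decG (q, l, r)) =
        some (postCfg decQ decG (rawStep (postDelta M decQ encQ decG encG) (q, l, r))) ∧
      (rawStep (postDelta M decQ encQ decG encG) (q, l, r)).1 ≠ 1 ∧
      decQ (rawStep (postDelta M decQ encQ decG encG) (q, l, r)).1 ∈ S := by
  obtain ⟨q', a⟩ := x
  have hq'S : q' ∈ S := hS.2 (by rw [h]; rfl) hqS
  have h2 : postDelta M decQ encQ decG encG q (r.headD 0) =
      postInstr encQ encG (r.headD 0) (some (q', a)) := by
    unfold postDelta
    rw [h]
  have h3 := post_step M decQ decG hd0 q l r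
  rw [h] at h3
  rw [rawStep_running _ _ _ _ hq, h2, h3]
  rcases a with d | a
  · rcases d with _ | _
    · refine ⟨?_, heQ _, by simpa [postInstr, hdQ q' hq'S] using hq'S⟩
      simp only [Option.map_some, Option.some.injEq, postCfg, postInstr]
      rw [hdQ q' hq'S, Turing.Tape.move_left_mk']
      simp only [Turing.ListBlank.tail_mk, Turing.ListBlank.head_mk, Turing.ListBlank.cons_mk,
        tail_map_decG, headI_map_decG decG hd0, List.map_cons]
      congr 2
      cases r with
      | nil =>
        simp only [List.headD_nil, List.tail_nil, List.map_nil, hd0]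
        apply Turing.ListBlank.ext
        intro i
        rw [Turing.ListBlank.nth_mk, Turing.ListBlank.nth_mk]
        rcases i with _ | _ | i
        · simp [List.getI]
        · simp [List.getI]
        · simp [List.getI]
      | cons b r => rfl
    · refine ⟨?_, heQ _, by simpa [postInstr, hdQ q' hq'S] using hq'S⟩
      simp only [Option.map_some, Option.some.injEq, postCfg, postInstr]
      rw [hdQ q' hq'S, Turing.Tape.move_right_mk']
      simp only [Turing.ListBlank.tail_mk, Turing.ListBlank.head_mk, Turing.ListBlank.cons_mk,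
        tail_map_decG, headI_map_decG decG hd0, List.map_cons]
  · refine ⟨?_, heQ _, by simpa [postInstr, hdQ q' hq'S] using hq'S⟩
    simp only [Option.map_some, Option.some.injEq, postCfg, postInstr]
    rw [hdQ q' hq'S, Turing.Tape.write_mk']
    simp only [Turing.ListBlank.tail_mk, Turing.ListBlank.cons_mk,
      tail_map_decG, List.map_cons, hdG]

include hS hdQ heQ hdG hd0 in
theorem post_halts_iff (c : Fin (N + 2) × List (Fin (m + 1)) × List (Fin (m + 1)))
    (hc1 : c.1 ≠ 1) (hcS : decQ c.1 ∈ S) :
    (∃ n : ℕ, ((rawStep (postDelta M decQ encQ decG encG))^[n] c).1 = 1) ↔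
      (eval (Turing.TM0.step M) (postCfg decQ decG c)).Dom := by
  constructor
  · rintro ⟨n, hn⟩
    induction n generalizing c with
    | zero => exact absurd hn hc1
    | succ n ih =>
      rw [Function.iterate_succ_apply] at hn
      obtain ⟨q, l, r⟩ := c
      rcases h : M (decQ q) (decG (r.headD 0)) with _ | x
      · have h1 := (post_step_none M decQ encQ decG encG hd0 q l r hc1 h).1
        exact Part.dom_iff_mem.2 ⟨_, mem_eval.2 ⟨Relation.ReflTransGen.refl, h1⟩⟩
      · obtain ⟨h1, h2, h3⟩ := post_step_some M decQ encQ decG encG S hS hdQ heQ hdG hd0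
          q l r hc1 hcS x h
        have h4 := ih _ h2 h3 hn
        rw [reaches_eval (Relation.ReflTransGen.single h1)]
        exact h4
  · intro h
    obtain ⟨b, hb⟩ := Part.dom_iff_mem.1 h
    obtain ⟨h1, h2⟩ := mem_eval.1 hb
    clear h hb
    generalize hC : postCfg decQ decG c = C at h1
    induction h1 using Relation.ReflTransGen.head_induction_on generalizing c with
    | refl =>
      obtain ⟨q, l, r⟩ := c
      rcases h : M (decQ q) (decG (r.headD 0)) with _ | x
      · exact ⟨1, (post_step_none M decQ encQ decG encG hd0 q l r hc1 h).2⟩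
      · obtain ⟨h3, -, -⟩ := post_step_some M decQ encQ decG encG S hS hdQ heQ hdG hd0
          q l r hc1 hcS x h
        rw [hC, h2] at h3
        cases h3
    | head hab hbc ih =>
      obtain ⟨q, l, r⟩ := c
      rcases h : M (decQ q) (decG (r.headD 0)) with _ | x
      · exact ⟨1, (post_step_none M decQ encQ decG encG hd0 q l r hc1 h).2⟩
      · obtain ⟨h3, h4, h5⟩ := post_step_some M decQ encQ decG encG S hS hdQ heQ hdG hd0
          q l r hc1 hcS x h
        rw [hC] at h3
        rw [h3] at hab
        obtain ⟨n, hn⟩ := ih _ h4 h5 (by simpa using hab)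
        exact ⟨n + 1, by rw [Function.iterate_succ_apply]; exact hn⟩

end

/-- Every Post-Turing machine over a finite alphabet with finitely many accessible states can be
simulated, as far as halting is concerned, by a machine in the sense of `Machine`. -/
theorem exists_machine_of_post {Γ Λ : Type} [Inhabited Γ] [Inhabited Λ] [Finite Γ]
    (M : Turing.TM0.Machine Γ Λ) (S : Finset Λ) (hS : Turing.TM0.Supports M ↑S) :
    ∃ (U : Machine) (enc : Γ → Fin (U.symbols + 1)), ∀ l : List Γ,
      U.Halts (0, [], l.map enc) ↔ (eval (Turing.TM0.step M) (Turing.TM0.init l)).Dom := by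
  classical
  obtain ⟨m, ⟨eG⟩⟩ := Finite.exists_equiv_fin Γ
  let eS : S ≃ Fin S.card := S.equivFin
  let decQ : Fin (S.card + 2) → Λ := fun q =>
    if h : 2 ≤ q.val then (eS.symm ⟨q.val - 2, by omega⟩ : Λ) else default
  let encQ : Λ → Fin (S.card + 2) := fun q =>
    if h : q ∈ S then ⟨(eS ⟨q, h⟩).val + 2, by omega⟩ else 0
  let decG : Fin (m + 1) → Γ := Fin.cases default eG.symm
  let encG : Γ → Fin (m + 1) := fun a => (eG a).succ
  have hdQ : ∀ q ∈ S, decQ (encQ q) = q := by
    intro q hq
    simp only [decQ, encQ]
    rw [dif_pos hq, dif_pos (by simp)]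
    simp
  have heQ : ∀ q, encQ q ≠ 1 := by
    intro q
    simp only [encQ]
    split_ifs with h
    · intro h1
      have := congrArg Fin.val h1
      simp at this
    · simp
  have hdG : ∀ a, decG (encG a) = a := by
    intro a; simp [decG, encG]
  have hd0 : decG 0 = default := by simp [decG]
  have hdQ0 : decQ 0 = default := by simp [decQ]
  refine ⟨⟨S.card, m, postDelta M decQ encQ decG encG⟩, encG, fun l => ?_⟩
  have h1 := post_halts_iff M decQ encQ decG encG S hS hdQ heQ hdG hd0 (0, [], l.map encG)
    (by simp) (by show decQ 0 ∈ S; rw [hdQ0]; exact hS.1)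
  have h2 : postCfg decQ decG ((0, [], l.map encG) :
      Fin (S.card + 2) × List (Fin (m + 1)) × List (Fin (m + 1))) = Turing.TM0.init l := by
    simp only [postCfg, hdQ0, Turing.TM0.init, Turing.Tape.mk₁, Turing.Tape.mk₂, List.map_map,
      List.map_nil]
    congr 3
    conv_rhs => rw [← List.map_id l]
    apply List.map_congr_left
    intro a _
    exact hdG a
  rw [← h2, ← h1]
  unfold Machine.Halts
  rw [Machine.step_eq_rawStep]

end TuringEuler
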