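import Mathlib
import Pool.Agent.Lib.MP_e7e3bc_an.Flow

/-!
# Unit-speed Beltrami shear flows
-/

namespace TuringEuler

open scoped ContDiff

section

variable (w : ℝ → ℝ)

/-- First velocity profile. -/
noncomputable def cosw (s : ℝ) : ℝ := (1 - w s ^ 2) / (1 + w s ^ 2)

/-- Second velocity profile. -/
noncomputable def sinw (s : ℝ) : ℝ := 2 * w s / (1 + w s ^ 2)

/-- The curve of velocities. -/
noncomputable def velo (s : ℝ) : E3 :=
  cosw w s • EuclideanSpace.single 1 (1 : ℝ) + sinw w s • EuclideanSpace.single 2 (1 : ℝ)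

/-- The shear flow with velocity `(0, cosw (x₀), sinw (x₀))`. -/
noncomputable def shear (x : E3) : E3 := velo w (x 0)

@[simp] theorem velo_zero (s : ℝ) : velo w s 0 = 0 := by simp [velo]
@[simp] theorem velo_one (s : ℝ) : velo w s 1 = cosw w s := by simp [velo]
@[simp] theorem velo_two (s : ℝ) : velo w s 2 = sinw w s := by simp [velo]

theorem one_add_sq_pos (s : ℝ) : 0 < 1 + w s ^ 2 := by positivity

theorem cosw_sq_add_sinw_sq (s : ℝ) : cosw w s ^ 2 + sinw w s ^ 2 = 1 := by
  have h := (one_add_sq_pos w s).ne'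
  unfold cosw sinw
  field_simp
  ring

variable (hw : ContDiff ℝ ∞ w) (hper : Function.Periodic w 1)

include hw

theorem contDiff_cosw : ContDiff ℝ ∞ (cosw w) :=
  (contDiff_const.sub (hw.pow 2)).div (contDiff_const.add (hw.pow 2))
    fun s => (one_add_sq_pos w s).ne'

theorem contDiff_sinw : ContDiff ℝ ∞ (sinw w) :=
  (contDiff_const.mul hw).div (contDiff_const.add (hw.pow 2))
    fun s => (one_add_sq_pos w s).ne'

theorem contDiff_velo : ContDiff ℝ ∞ (velo w) :=
  ((contDiff_cosw w hw).smul contDiff_const).add ((contDiff_sinw w hw).smul contDiff_const)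

theorem hasDerivAt_w (s : ℝ) : HasDerivAt w (deriv w s) s :=
  ((hw.differentiable (by simp)) s).hasDerivAt

theorem hasDerivAt_cosw (s : ℝ) :
    HasDerivAt (cosw w) (2 * deriv w s / (1 + w s ^ 2) * -sinw w s) s := by
  have h1 := hasDerivAt_w w hw s
  have hne := (one_add_sq_pos w s).ne'
  have h2 := ((h1.pow 2).const_sub 1).div ((h1.pow 2).const_add 1) hne
  refine h2.congr_deriv ?_
  simp only [Pi.pow_apply]
  unfold sinw
  field_simp
  ring

theorem hasDerivAt_sinw (s : ℝ) :
    HasDerivAt (sinw w) (2 * deriv w s / (1 + w s ^ 2) * cosw w s) s := by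
  have h1 := hasDerivAt_w w hw s
  have hne := (one_add_sq_pos w s).ne'
  have h2 := (h1.const_mul 2).div ((h1.pow 2).const_add 1) hne
  refine h2.congr_deriv ?_
  simp only [Pi.pow_apply]
  unfold cosw
  field_simp
  ring

/-- The derivative of the velocity curve. -/
noncomputable def dvelo (s : ℝ) : E3 :=
  (2 * deriv w s / (1 + w s ^ 2) * -sinw w s) • EuclideanSpace.single 1 (1 : ℝ) +
    (2 * deriv w s / (1 + w s ^ 2) * cosw w s) • EuclideanSpace.single 2 (1 : ℝ)

theorem hasDerivAt_velo (s : ℝ) : HasDerivAt (velo w) (dvelo w s) s :=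
  ((hasDerivAt_cosw w hw s).smul_const _).add ((hasDerivAt_sinw w hw s).smul_const _)

theorem fderiv_shear (x v : E3) : fderiv ℝ (shear w) x v = v 0 • dvelo w (x 0) := by
  have h1 := (hasDerivAt_velo w hw (x 0)).hasFDerivAt
  have h2 : HasFDerivAt (fun x : E3 => x 0) (EuclideanSpace.proj (𝕜 := ℝ) (0 : Fin 3) :
      E3 →L[ℝ] ℝ) x := (EuclideanSpace.proj (𝕜 := ℝ) (0 : Fin 3)).hasFDerivAt
  have h3 : HasFDerivAt (shear w) _ x := HasFDerivAt.comp x h1 h2
  rw [h3.fderiv]
  simp

theorem pderiv_shear (j i : Fin 3) (x : E3) :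
    pderiv j (shear w) i x = (if j = 0 then 1 else 0) * dvelo w (x 0) i := by
  unfold pderiv
  rw [fderiv_shear w hw]
  by_cases hj : j = 0
  · subst hj; simp
  · simp [hj, Ne.symm hj]

theorem div_shear (x : E3) : ∑ i, pderiv i (shear w) i x = 0 := by
  simp only [pderiv_shear w hw, Fin.sum_univ_three]
  simp [dvelo]

omit hw in
theorem smoothOnTorus_comp {F : Type} [NormedAddCommGroup F] [NormedSpace ℝ F] {f : ℝ → F}
    (hf : ContDiff ℝ ∞ f) (hfp : Function.Periodic f 1) :
    SmoothOnTorus (fun x : E3 => f (x 0)) := by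
  refine ⟨hf.comp (EuclideanSpace.proj (𝕜 := ℝ) (0 : Fin 3)).contDiff, fun x y hxy => ?_⟩
  have h0 : ((x 0 : ℝ) : UnitAddCircle) = (y 0 : ℝ) := congrFun hxy 0
  have h1 : (((x 0 - y 0 : ℝ)) : UnitAddCircle) = 0 := by
    rw [AddCircle.coe_sub, h0, sub_self]
  obtain ⟨n, hn⟩ := (AddCircle.coe_eq_zero_iff (1 : ℝ)).1 h1
  have h2 : x 0 = y 0 + n • (1 : ℝ) := by rw [hn]; ring
  show f (x 0) = f (y 0)
  rw [h2]
  exact hfp.zsmul n (y 0)

include hper

theorem smoothOnTorus_shear : SmoothOnTorus (shear w) := by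
  refine smoothOnTorus_comp (contDiff_velo w hw) ?_
  intro s
  simp only [velo, cosw, sinw, hper s]

theorem isStationaryEulerFlow_shear : IsStationaryEulerFlow (shear w) := by
  refine ⟨smoothOnTorus_shear w hw hper, div_shear w hw, fun _ => 0, ⟨contDiff_const,
    fun _ _ _ => rfl⟩, fun x => ?_⟩
  rw [fderiv_shear w hw]
  have h1 : shear w x 0 = 0 := velo_zero w (x 0)
  have h2 : gradient (fun _ : E3 => (0 : ℝ)) x = 0 := by
    simp [gradient]
  rw [h1, h2]
  simp

theorem isBeltrami_shear : IsBeltrami (shear w) := by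
  refine ⟨smoothOnTorus_shear w hw hper, div_shear w hw,
    fun x => -(2 * deriv w (x 0) / (1 + w (x 0) ^ 2)), ?_, fun x => ?_⟩
  · refine smoothOnTorus_comp
      (f := fun s => -(2 * deriv w s / (1 + w s ^ 2))) ?_ ?_
    · refine ((contDiff_const.mul ?_).div (contDiff_const.add (hw.pow 2))
        fun s => (one_add_sq_pos w s).ne').neg
      exact hw.deriv' 
    · intro s
      have h1 : deriv w (s + 1) = deriv w s := by
        have h2 : (fun s => w (s + 1)) = w := funext hper
        have h3 := deriv_comp_add_const w 1 s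
        rw [h2] at h3
        exact h3.symm
      simp only [h1, hper s]
  · ext i
    have h0 : shear w x = velo w (x 0) := rfl
    fin_cases i
    · simp [curl, pderiv_shear w hw, h0]
    · simp [curl, pderiv_shear w hw, h0, dvelo]
    · simp [curl, pderiv_shear w hw, h0, dvelo]

omit hw hper in
theorem norm_shear (x : E3) : ‖shear w x‖ = 1 := by
  rw [EuclideanSpace.norm_eq, Real.sqrt_eq_one, Fin.sum_univ_three]
  have h0 : shear w x = velo w (x 0) := rfl
  rw [h0, velo_zero, velo_one, velo_two]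
  have := cosw_sq_add_sinw_sq w (x 0)
  simpa using this

omit hw hper in
/-- A smooth periodic function of one variable is Lipschitz. -/
theorem exists_lipschitz {F : Type} [NormedAddCommGroup F] [NormedSpace ℝ F] {f : ℝ → F}
    (hf : ContDiff ℝ ∞ f) (hfp : Function.Periodic f 1) :
    ∃ L : ℕ, ∀ x y, ‖f x - f y‖ ≤ L * |x - y| := by
  have hd : Continuous (deriv f) := hf.continuous_deriv (by simp)
  have hdp : Function.Periodic (deriv f) 1 := by
    intro s
    have h2 : (fun s => f (s + 1)) = f := funext hfp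
    have h3 := deriv_comp_add_const f 1 s
    rw [h2] at h3
    exact h3.symm
  obtain ⟨C, hC⟩ := (isCompact_Icc (a := (0 : ℝ)) (b := 1)).exists_bound_of_continuousOn
    hd.continuousOn
  obtain ⟨L, hL⟩ := exists_nat_ge C
  refine ⟨L, fun x y => ?_⟩
  have hb : ∀ s, ‖deriv f s‖ ≤ L := by
    intro s
    obtain ⟨t, ht, hst⟩ := hdp.exists_mem_Ico₀ zero_lt_one s
    rw [hst]
    exact (hC t ⟨ht.1, ht.2.le⟩).trans hL
  have h := Convex.norm_image_sub_le_of_norm_deriv_le (s := Set.univ) (f := f) (C := (L : ℝ))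
    (x := y) (y := x) (fun s _ => (hf.differentiable (by simp)) s) (fun s _ => hb s)
    convex_univ trivial trivial
  rwa [Real.norm_eq_abs] at h

theorem lipschitz_shear : ∃ L : ℕ, ∀ x y, ‖shear w x - shear w y‖ ≤ L * ‖x - y‖ := by
  have hp : Function.Periodic (velo w) 1 := by
    intro s
    simp only [velo, cosw, sinw, hper s]
  obtain ⟨L, hL⟩ := exists_lipschitz (contDiff_velo w hw) hp
  refine ⟨L, fun x y => (hL (x 0) (y 0)).trans ?_⟩
  have h1 : |x 0 - y 0| ≤ ‖x - y‖ := by
    have := PiLp.norm_apply_le (x - y) 0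
    simpa using this
  gcongr

omit hw hper in
/-- The explicit orbits of the shear flow. -/
theorem hasDerivAt_orbit (a : E3) (t : ℝ) :
    HasDerivAt (fun t : ℝ => a + t • shear w a) (shear w (a + t • shear w a)) t := by
  have h1 : shear w (a + t • shear w a) = shear w a := by
    unfold shear
    simp
  rw [h1]
  have h2 : HasDerivAt (fun t : ℝ => t • shear w a) ((1 : ℝ) • shear w a) t :=
    (hasDerivAt_id t).smul_const _
  rw [one_smul] at h2
  exact h2.const_add a

omit hw hper in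
/-- Along an orbit the first coordinate is constant. -/
theorem orbit_zero {γ : ℝ → E3} (hγ : ∀ t, HasDerivAt γ (shear w (γ t)) t) (t : ℝ) :
    γ t 0 = γ 0 0 := by
  have h1 : ∀ s, HasDerivAt (fun t => γ t 0) 0 s := by
    intro s
    have := ((EuclideanSpace.proj (𝕜 := ℝ) (0 : Fin 3) : E3 →L[ℝ] ℝ).hasFDerivAt).comp_hasDerivAt
      s (hγ s)
    have h2 : (EuclideanSpace.proj (𝕜 := ℝ) (0 : Fin 3) : E3 →L[ℝ] ℝ) (shear w (γ s)) = 0 :=
      velo_zero w _
    rw [h2] at this
    exact this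
  exact is_const_of_deriv_eq_zero (fun s => (h1 s).differentiableAt) (fun s => (h1 s).deriv) t 0

omit hw hper in
/-- If the vertical speed vanishes then the last coordinate is constant along the orbit. -/
theorem orbit_two {γ : ℝ → E3} (hγ : ∀ t, HasDerivAt γ (shear w (γ t)) t)
    (h0 : w (γ 0 0) = 0) (t : ℝ) : γ t 2 = γ 0 2 := by
  have h1 : ∀ s, HasDerivAt (fun t => γ t 2) 0 s := by
    intro s
    have := ((EuclideanSpace.proj (𝕜 := ℝ) (2 : Fin 3) : E3 →L[ℝ] ℝ).hasFDerivAt).comp_hasDerivAt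
      s (hγ s)
    have h2 : (EuclideanSpace.proj (𝕜 := ℝ) (2 : Fin 3) : E3 →L[ℝ] ℝ) (shear w (γ s)) = 0 := by
      show velo w (γ s 0) 2 = 0
      rw [velo_two, orbit_zero w hγ s, sinw, h0]
      simp
    rw [h2] at this
    exact this
  exact is_const_of_deriv_eq_zero (fun s => (h1 s).differentiableAt) (fun s => (h1 s).deriv) t 0

/-- The code of the slab `{1/4 < z < 3/4}`. -/
def slab : List BoxCode :=
  [(((0, 1, 0), (0, 1, 0), (1, 0, 3)), ((2, 0, 0), (2, 0, 0), (3, 0, 3)))]

omit hw hper in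
theorem mem_slab_iff (x : T3) : x ∈ openSet slab ↔ ∃ s : ℝ, 1 / 4 < s ∧ s < 3 / 4 ∧ x 2 = s := by
  unfold openSet slab
  simp only [List.mem_singleton, Set.iUnion_iUnion_eq_left]
  constructor
  · rintro ⟨y, hy, rfl⟩
    have h2 := hy 2
    simp only [PointCode.val, RatCode.val, Matrix.cons_val] at h2
    refine ⟨y 2, ?_, ?_, rfl⟩
    · have := h2.1
      norm_num at this
      linarith
    · have := h2.2
      norm_num at this
      linarith
  · rintro ⟨s, hs1, hs2, hx⟩
    obtain ⟨u, hu, hu'⟩ : ∃ u : ℝ, (-1 < u ∧ u < 2) ∧ (u : UnitAddCircle) = x 0 := by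
      obtain ⟨u, hu⟩ := QuotientAddGroup.mk_surjective (x 0)
      rw [← hu]
      refine ⟨Int.fract u, ⟨by linarith [Int.fract_nonneg u], by linarith [Int.fract_lt_one u]⟩, ?_⟩
      have h3 : (Int.fract u : ℝ) = u - ⌊u⌋ := rfl
      have h5 : ((⌊u⌋ : ℝ) : UnitAddCircle) = 0 :=
        (AddCircle.coe_eq_zero_iff (1 : ℝ)).2 ⟨⌊u⌋, by simp⟩
      rw [h3, AddCircle.coe_sub, h5, sub_zero]
    obtain ⟨v, hv, hv'⟩ : ∃ v : ℝ, (-1 < v ∧ v < 2) ∧ (v : UnitAddCircle) = x 1 := by
      obtain ⟨u, hu⟩ := QuotientAddGroup.mk_surjective (x 1)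
      rw [← hu]
      refine ⟨Int.fract u, ⟨by linarith [Int.fract_nonneg u], by linarith [Int.fract_lt_one u]⟩, ?_⟩
      have h3 : (Int.fract u : ℝ) = u - ⌊u⌋ := rfl
      have h5 : ((⌊u⌋ : ℝ) : UnitAddCircle) = 0 :=
        (AddCircle.coe_eq_zero_iff (1 : ℝ)).2 ⟨⌊u⌋, by simp⟩
      rw [h3, AddCircle.coe_sub, h5, sub_zero]
    refine ⟨!₂[u, v, s], ?_, ?_⟩
    · intro i
      fin_cases i
      · simp only [PointCode.val, RatCode.val]
        constructor <;> norm_num <;> linarith [hu.1, hu.2]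
      · simp only [PointCode.val, RatCode.val]
        constructor <;> norm_num <;> linarith [hv.1, hv.2]
      · simp only [PointCode.val, RatCode.val]
        constructor <;> norm_num <;> linarith
    · funext i
      fin_cases i
      · simpa [toTorus] using hu'
      · simpa [toTorus] using hv'
      · simpa [toTorus] using hx.symm

omit hw hper in
/-- The orbit through a point with small last coordinate meets the slab iff the vertical speed
there is positive. -/
theorem orbitMeets_shear_iff (hnn : ∀ s, 0 ≤ w s) (a : E3) (ha : |a 2| < 1 / 4) :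
    OrbitMeets (shear w) a (openSet slab) ↔ 0 < w (a 0) := by
  rw [abs_lt] at ha
  constructor
  · rintro ⟨γ, h0, hγ, t, -, ht⟩
    by_contra hcon
    have hw0 : w (γ 0 0) = 0 := by
      rw [h0]
      exact le_antisymm (not_lt.1 hcon) (hnn _)
    rw [mem_slab_iff] at ht
    obtain ⟨s, hs1, hs2, hs⟩ := ht
    have h1 : γ t 2 = a 2 := by rw [orbit_two w hγ hw0 t, h0]
    have h2 : ((a 2 - s : ℝ) : UnitAddCircle) = 0 := by
      have h3 : ((γ t 2 : ℝ) : UnitAddCircle) = s := hs
      rw [h1] at h3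
      rw [AddCircle.coe_sub, h3, sub_self]
    obtain ⟨n, hn⟩ := (AddCircle.coe_eq_zero_iff (1 : ℝ)).1 h2
    rw [zsmul_eq_mul, mul_one] at hn
    have h3 : (n : ℝ) < 0 := by rw [hn]; linarith
    have h4 : (-1 : ℝ) < n := by rw [hn]; linarith
    have h5 : n < 0 := by exact_mod_cast h3
    have h6 : -1 < n := by exact_mod_cast h4
    omega
  · intro hpos
    refine ⟨fun t => a + t • shear w a, by simp, hasDerivAt_orbit w a, (1 / 2 - a 2) /
      sinw w (a 0), ?_, ?_⟩
    · have h1 : 0 < sinw w (a 0) := by unfold sinw; positivity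
      exact div_nonneg (by linarith) h1.le
    · rw [mem_slab_iff]
      refine ⟨1 / 2, by norm_num, by norm_num, ?_⟩
      have h1 : 0 < sinw w (a 0) := by unfold sinw; positivity
      have h2 : (a + ((1 / 2 - a 2) / sinw w (a 0)) • shear w a) 2 = 1 / 2 := by
        have h3 : shear w a 2 = sinw w (a 0) := velo_two w _
        simp only [PiLp.add_apply, PiLp.smul_apply, smul_eq_mul, h3]
        field_simp
        ring
      show (((a + ((1 / 2 - a 2) / sinw w (a 0)) • shear w a) 2 : ℝ) : UnitAddCircle) = _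
      rw [h2]

omit hw hper in
/-- The last coordinate along an orbit. -/
theorem orbit_two' {γ : ℝ → E3} (hγ : ∀ t, HasDerivAt γ (shear w (γ t)) t) (t : ℝ) :
    γ t 2 = γ 0 2 + t * sinw w (γ 0 0) := by
  have h1 : ∀ s, HasDerivAt (fun t => γ t 2 - t * sinw w (γ 0 0)) 0 s := by
    intro s
    have h3 := ((EuclideanSpace.proj (𝕜 := ℝ) (2 : Fin 3) : E3 →L[ℝ] ℝ).hasFDerivAt).comp_hasDerivAt
      s (hγ s)
    have h2 : (EuclideanSpace.proj (𝕜 := ℝ) (2 : Fin 3) : E3 →L[ℝ] ℝ) (shear w (γ s)) =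
        sinw w (γ 0 0) := by
      show velo w (γ s 0) 2 = sinw w (γ 0 0)
      rw [velo_two, orbit_zero w hγ s]
    rw [h2] at h3
    have h4 := h3.sub ((hasDerivAt_id s).mul_const (sinw w (γ 0 0)))
    rw [one_mul, sub_self] at h4
    exact h4
  have h5 := is_const_of_deriv_eq_zero (fun s => (h1 s).differentiableAt)
    (fun s => (h1 s).deriv) t 0
  simp only [zero_mul, sub_zero] at h5
  linarith

omit hw hper in
/-- When does the orbit meet the slab before time `τ`? -/
theorem orbitMeetsBefore_shear_iff (hnn : ∀ s, 0 ≤ w s) (a : E3) (ha : |a 2| < 1 / 4)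
    {τ : ℝ} (hτ : 0 ≤ τ) :
    OrbitMeetsBefore (shear w) a (openSet slab) τ ↔ 1 / 4 < a 2 + τ * sinw w (a 0) := by
  have hs0 : 0 ≤ sinw w (a 0) := by
    unfold sinw
    have := hnn (a 0)
    positivity
  rw [abs_lt] at ha
  constructor
  · rintro ⟨γ, h0, hγ, t, ht0, htτ, ht⟩
    by_contra hcon
    push Not at hcon
    rw [mem_slab_iff] at ht
    obtain ⟨s, hs1, hs2, hs⟩ := ht
    have h1 : γ t 2 = a 2 + t * sinw w (a 0) := by rw [orbit_two' w hγ t, h0]
    have h2 : ((γ t 2 - s : ℝ) : UnitAddCircle) = 0 := by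
      have h3 : ((γ t 2 : ℝ) : UnitAddCircle) = s := hs
      rw [AddCircle.coe_sub, h3, sub_self]
    obtain ⟨n, hn⟩ := (AddCircle.coe_eq_zero_iff (1 : ℝ)).1 h2
    rw [zsmul_eq_mul, mul_one, h1] at hn
    have h6 : t * sinw w (a 0) ≤ τ * sinw w (a 0) := by gcongr
    have h7 : 0 ≤ t * sinw w (a 0) := by positivity
    have h3 : (n : ℝ) < 0 := by rw [hn]; linarith
    have h4 : (-1 : ℝ) < n := by rw [hn]; linarith
    have h5 : n < 0 := by exact_mod_cast h3
    have h6 : -1 < n := by exact_mod_cast h4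
    omega
  · intro hlt
    have hz : ∀ t : ℝ, (a + t • shear w a) 2 = a 2 + t * sinw w (a 0) := by
      intro t
      have h3 : shear w a 2 = sinw w (a 0) := velo_two w _
      simp only [PiLp.add_apply, PiLp.smul_apply, smul_eq_mul, h3]
    by_cases h34 : a 2 + τ * sinw w (a 0) < 3 / 4
    · refine ⟨fun t => a + t • shear w a, by simp, hasDerivAt_orbit w a, τ, hτ, le_rfl, ?_⟩
      rw [mem_slab_iff]
      refine ⟨a 2 + τ * sinw w (a 0), hlt, h34, ?_⟩
      show (((a + τ • shear w a) 2 : ℝ) : UnitAddCircle) = _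
      rw [hz]
    · push Not at h34
      have hpos : 0 < sinw w (a 0) := by
        rcases hs0.lt_or_eq with h | h
        · exact h
        · rw [← h] at h34; linarith
      refine ⟨fun t => a + t • shear w a, by simp, hasDerivAt_orbit w a,
        (1 / 2 - a 2) / sinw w (a 0), div_nonneg (by linarith) hpos.le, ?_, ?_⟩
      · rw [div_le_iff₀ hpos]; linarith
      · rw [mem_slab_iff]
        refine ⟨1 / 2, by norm_num, by norm_num, ?_⟩
        show (((a + ((1 / 2 - a 2) / sinw w (a 0)) • shear w a) 2 : ℝ) : UnitAddCircle) = _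
        rw [hz]
        congr 1
        field_simp
        ring

end

end TuringEuler
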