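import Mathlib
import Pool.Agent.Lib.MP_e7e3bc_an.Machine
import Pool.Agent.Lib.MP_e7e3bc_an.FromPost

/-!
# Existence of a universal machine
-/

namespace TuringEuler

open Turing StateTransition

instance : Fintype Turing.PartrecToTM2.K' :=
  ⟨{.main, .rev, .aux, .stack}, by intro k; cases k <;> simp⟩

/-- The finite alphabet of the one-tape machine obtained from a partial recursive function. -/
abbrev TapeSym : Type :=
  Turing.TM2to1.Γ' Turing.PartrecToTM2.K' (fun _ => Turing.PartrecToTM2.Γ')

theorem main_stack_eq (L : List Turing.PartrecToTM2.Γ') :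
    Function.update (fun _ => ([] : List Turing.PartrecToTM2.Γ')) Turing.PartrecToTM2.K'.main L =
      Turing.PartrecToTM2.K'.elim L [] [] [] := by
  funext k
  cases k <;> rfl

/-- Every code of a partial recursive function is evaluated by some machine. -/
theorem exists_machine_of_code (c : Turing.ToPartrec.Code) :
    ∃ (U : Machine) (enc : TapeSym → Fin (U.symbols + 1)), ∀ v : List ℕ,
      U.Halts (0, [], (Turing.TM2to1.trInit Turing.PartrecToTM2.K'.main
        (Turing.PartrecToTM2.trList v)).map enc) ↔ (c.eval v).Dom := by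
  let inst : Inhabited Turing.PartrecToTM2.Λ' :=
    ⟨Turing.PartrecToTM2.trNormal c Turing.PartrecToTM2.Cont'.halt⟩
  have h2 : Turing.TM2.Supports Turing.PartrecToTM2.tr
      (Turing.PartrecToTM2.codeSupp c Turing.PartrecToTM2.Cont'.halt) :=
    Turing.PartrecToTM2.tr_supports c Turing.PartrecToTM2.Cont'.halt
  have h1 := Turing.TM2to1.tr_supports Turing.PartrecToTM2.tr h2
  have h0 := Turing.TM1to0.tr_supports (Turing.TM2to1.tr Turing.PartrecToTM2.tr) h1
  obtain ⟨U, enc, hU⟩ := exists_machine_of_post
    (Turing.TM1to0.tr (Turing.TM2to1.tr Turing.PartrecToTM2.tr)) _ h0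
  refine ⟨U, enc, fun v => ?_⟩
  rw [hU]
  have e1 : (eval (Turing.TM0.step (Turing.TM1to0.tr (Turing.TM2to1.tr Turing.PartrecToTM2.tr)))
      (Turing.TM0.init (Turing.TM2to1.trInit Turing.PartrecToTM2.K'.main
        (Turing.PartrecToTM2.trList v)))).Dom ↔
      (Turing.TM0.eval (Turing.TM1to0.tr (Turing.TM2to1.tr Turing.PartrecToTM2.tr))
        (Turing.TM2to1.trInit Turing.PartrecToTM2.K'.main
        (Turing.PartrecToTM2.trList v))).Dom := Iff.rfl
  rw [e1, Turing.TM1to0.tr_eval]
  refine Iff.trans (Turing.TM2to1.tr_eval_dom Turing.PartrecToTM2.tr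
    Turing.PartrecToTM2.K'.main (Turing.PartrecToTM2.trList v)) ?_
  have e2 : (Turing.TM2.eval Turing.PartrecToTM2.tr Turing.PartrecToTM2.K'.main
      (Turing.PartrecToTM2.trList v)).Dom ↔
      (eval (Turing.TM2.step Turing.PartrecToTM2.tr) (Turing.PartrecToTM2.init c v)).Dom := by
    have e3 : (Turing.TM2.init Turing.PartrecToTM2.K'.main (Turing.PartrecToTM2.trList v) :
        Turing.TM2.Cfg (fun _ : Turing.PartrecToTM2.K' => Turing.PartrecToTM2.Γ')
          Turing.PartrecToTM2.Λ' (Option Turing.PartrecToTM2.Γ')) =
        Turing.PartrecToTM2.init c v := by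
      unfold Turing.TM2.init Turing.PartrecToTM2.init
      rw [main_stack_eq]
      rfl
    rw [← e3]
    rfl
  rw [e2, Turing.PartrecToTM2.tr_eval]
  rfl

/-- Binary digits. -/
theorem trNat_eq_bits (n : ℕ) : Turing.PartrecToTM2.trNat n =
    (Nat.bits n).map (fun b => cond b Turing.PartrecToTM2.Γ'.bit1 Turing.PartrecToTM2.Γ'.bit0) := by
  have key : ∀ n : ℕ, Turing.PartrecToTM2.trNum (Num.ofNat' n) =
    (Nat.bits n).map (fun b => cond b Turing.PartrecToTM2.Γ'.bit1
      Turing.PartrecToTM2.Γ'.bit0) := by
    intro n
    induction n using Nat.binaryRec' with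
    | zero => simp [Turing.PartrecToTM2.trNum]
    | bit b n h ih =>
      rw [Num.ofNat'_bit, Nat.bits_append_bit n b h, List.map_cons, ← ih]
      cases b with
      | false =>
        have hn : n ≠ 0 := by
          intro h0; have := h h0; simp at this
        rcases hN : Num.ofNat' n with _ | p
        · exfalso
          apply hn
          have h3 := Num.ofNat'_eq n
          rw [hN] at h3
          have h4 : ((n : Num) : ℕ) = n := Num.to_of_nat n
          rw [← h3] at h4
          simpa using h4.symm
        · rfl
      | true =>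
        rcases hN : Num.ofNat' n with _ | p
        · rfl
        · rfl
  have := key n
  rwa [Num.ofNat'_eq] at this

theorem bits_eq_cons (n : ℕ) (hn : n ≠ 0) : Nat.bits n = Nat.bodd n :: Nat.bits (n / 2) := by
  have h := Nat.bits_append_bit (Nat.div2 n) (Nat.bodd n) (by
    intro h0
    have h1 := Nat.bit_bodd_div2 n
    rw [h0] at h1
    cases hb : n.bodd with
    | true => rfl
    | false =>
      rw [hb] at h1
      simp at h1
      exact absurd h1.symm hn)
  rw [Nat.bit_bodd_div2, Nat.div2_val] at h
  exact h

theorem primrec_bits : Primrec Nat.bits := by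
  have h : Primrec₂ fun (_ : Unit) (n : ℕ) => Nat.bits n := by
    refine Primrec.nat_strong_rec _ (g := fun _ l => some
      (if l.length = 0 then [] else Nat.bodd l.length :: l.getD (l.length / 2) [])) ?_ ?_
    · have hl : Primrec fun p : Unit × List (List Bool) => p.2.length :=
        Primrec.list_length.comp Primrec.snd
      refine Primrec.option_some.comp (Primrec.ite (Primrec.eq.comp hl (Primrec.const 0))
        (Primrec.const []) (Primrec.list_cons.comp (Primrec.nat_bodd.comp hl) ?_))
      exact (Primrec.list_getD []).comp Primrec.snd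
        (Primrec.nat_div.comp hl (Primrec.const 2))
    · intro _ n
      simp only [List.length_map, List.length_range, Option.some.injEq]
      split_ifs with h
      · subst h; simp
      · rw [bits_eq_cons n h]
        congr 1
        have : n / 2 < n := Nat.div_lt_self (Nat.pos_of_ne_zero h) (by norm_num)
        simp [List.getD, this]
  exact h.comp (Primrec.const ()) Primrec.id

theorem map_cons_map_reverse {α β γ δ : Type} (enc : β → γ) (x : β) (f : α → β) (g : δ → α)
    (l : List δ) : (x :: ((l.map g).reverse.map f)).map enc =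
      enc x :: (l.reverse.map (fun d => enc (f (g d)))) := by
  simp only [List.map_cons, List.map_reverse, List.map_map]
  rfl

/-- The input tape as a function of the input. -/
theorem exists_tape_eq {σ : Type} (enc : TapeSym → σ) :
    ∃ (a : σ) (e : Bool → σ), ∀ n : ℕ,
      (Turing.TM2to1.trInit Turing.PartrecToTM2.K'.main
        (Turing.PartrecToTM2.trList [n])).map enc =
      a :: ((Nat.bits n).reverse.map e) := by
  let u : Turing.PartrecToTM2.Γ' → (∀ _ : Turing.PartrecToTM2.K',
      Option Turing.PartrecToTM2.Γ') := fun a =>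
    Function.update (fun _ => none) Turing.PartrecToTM2.K'.main (some a)
  refine ⟨enc (true, u Turing.PartrecToTM2.Γ'.cons), fun b => enc (false, u (cond b
    Turing.PartrecToTM2.Γ'.bit1 Turing.PartrecToTM2.Γ'.bit0)), fun n => ?_⟩
  have h1 : (Turing.PartrecToTM2.trList [n]).reverse =
      Turing.PartrecToTM2.Γ'.cons :: (Turing.PartrecToTM2.trNat n).reverse := by
    simp
  have h2 : Turing.TM2to1.trInit Turing.PartrecToTM2.K'.main
        (Turing.PartrecToTM2.trList [n]) =
      ((true, u Turing.PartrecToTM2.Γ'.cons) : TapeSym) ::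
        (Turing.PartrecToTM2.trNat n).reverse.map (fun a => ((false, u a) : TapeSym)) := by
    unfold Turing.TM2to1.trInit
    rw [h1]
    rfl
  rw [h2, trNat_eq_bits]
  exact map_cons_map_reverse enc _ _ _ _

/-- The partial function that searches for the halting time. -/
def haltTime (n : ℕ) : Part ℕ :=
  Nat.rfind (fun j => Part.some (uhalted (Denumerable.ofNat Desc n) j))

theorem partrec_haltTime : Partrec haltTime := by
  unfold haltTime
  refine Partrec.rfind ?_
  have h : Primrec fun p : ℕ × ℕ => uhalted (Denumerable.ofNat Desc p.1) p.2 :=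
    primrec_uhalted.comp ((Primrec.ofNat Desc).comp Primrec.fst) Primrec.snd
  exact h.to_comp.partrec

theorem haltTime_dom (d : Desc) :
    (haltTime (Encodable.encode d)).Dom ↔ ∃ j, uhalted d j = true := by
  unfold haltTime
  rw [Denumerable.ofNat_encode]
  refine Iff.trans (@Nat.rfind_dom (fun j => Part.some (uhalted d j))) ?_
  simp only [Part.mem_some_iff, Part.some_dom, implies_true, and_true]
  exact exists_congr fun j => eq_comm

/-- There is a universal Turing machine. -/
theorem exists_universal : ∃ U : Machine, U.IsUniversal := by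
  obtain ⟨c, hc⟩ := Turing.ToPartrec.Code.exists_code
    (Nat.Partrec'.part_iff₁.2 partrec_haltTime)
  obtain ⟨U, enc, hU⟩ := exists_machine_of_code c
  obtain ⟨a, e, hae⟩ := exists_tape_eq enc
  refine ⟨U, fun d => (0, [], a :: ((Nat.bits (Encodable.encode d)).reverse.map e)), ?_, ?_⟩
  · apply Primrec.to_comp
    have h1 : Primrec fun d : Desc => (Nat.bits (Encodable.encode d)).reverse.map e :=
      Primrec.list_map (Primrec.list_reverse.comp (primrec_bits.comp Primrec.encode))
        ((Primrec.dom_finite e).comp Primrec.snd)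
    exact Primrec.pair (Primrec.const 0) (Primrec.pair (Primrec.const [])
      (Primrec.list_cons.comp (Primrec.const a) h1))
  · intro T cf
    refine ⟨rfl, ?_⟩
    have h0 : U.Halts ((0, [], a :: ((Nat.bits (Encodable.encode (T.describe cf))).reverse.map e)) :
        U.Config) ↔ (c.eval [Encodable.encode (T.describe cf)]).Dom := by
      rw [← hae, hU]
    rw [T.halts_iff, ← haltTime_dom]
    refine Iff.trans ?_ h0.symm
    have h2 := hc ⟨[Encodable.encode (T.describe cf)], rfl⟩
    have h3 : c.eval [Encodable.encode (T.describe cf)] =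
      pure <$> haltTime (Encodable.encode (T.describe cf)) := h2
    rw [h3]
    rfl

end TuringEuler
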