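import Mathlib
import Pool.Agent.Lib.MP_e7e3bc_an.Machine
import Pool.Agent.Lib.MP_e7e3bc_an.Universal
import Pool.Agent.Lib.MP_e7e3bc_an.Bump
import Pool.Agent.Lib.MP_e7e3bc_an.Flow
import Pool.Agent.Lib.MP_e7e3bc_an.Shear
import Pool.Agent.Lib.MP_e7e3bc_an.Approx

/-!
# The Turing complete computable Beltrami field on the flat torus
-/

namespace TuringEuler

/-- `hit (pair n j) = 1` iff the machine and configuration with number `n` have reached the halting
state after `j` steps, and `0` otherwise. -/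
def hit (m : ℕ) : ℕ :=
  cond (uhalted (Denumerable.ofNat Desc m.unpair.1) m.unpair.2) 1 0

theorem hit_le_one (m : ℕ) : hit m ≤ 1 := by
  unfold hit
  cases uhalted (Denumerable.ofNat Desc m.unpair.1) m.unpair.2 <;> simp

theorem hit_pair_ne_zero (d : Desc) (j : ℕ) :
    hit (Nat.pair (Encodable.encode d) j) ≠ 0 ↔ uhalted d j = true := by
  unfold hit
  rw [Nat.unpair_pair, Denumerable.ofNat_encode]
  cases uhalted d j <;> simp

theorem hit_pair_eq_one (d : Desc) (j : ℕ) :
    hit (Nat.pair (Encodable.encode d) j) = 1 ↔ uhalted d j = true := by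
  unfold hit
  rw [Nat.unpair_pair, Denumerable.ofNat_encode]
  cases uhalted d j <;> simp

theorem hit_pair_eq_zero (d : Desc) (j : ℕ) :
    hit (Nat.pair (Encodable.encode d) j) = 0 ↔ ¬ uhalted d j = true := by
  unfold hit
  rw [Nat.unpair_pair, Denumerable.ofNat_encode]
  cases uhalted d j <;> simp

theorem primrec_hit : Primrec hit := by
  unfold hit
  refine Primrec.cond (primrec_uhalted.comp ((Primrec.ofNat Desc).comp
    (Primrec.fst.comp Primrec.unpair)) (Primrec.snd.comp Primrec.unpair))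
    (Primrec.const 1) (Primrec.const 0)

/-- The profile. -/
noncomputable def prof : ℝ → ℝ := pwave hit

/-- The vector field. -/
noncomputable def field : E3 → E3 := shear prof

/-! ### The points and boxes -/

/-- The starting point attached to number `n`. -/
def startPoint (n : ℕ) : PointCode :=
  ((2 ^ (n + 4) + 16, 0, 2 ^ (n + 6) - 1), (0, 0, 0), (0, 0, 0))

/-- The box attached to number `n`. -/
def startBox (n : ℕ) : BoxCode :=
  (((2 ^ (n + 4) + 15, 0, 2 ^ (n + 6) - 1), (0, 1, 7), (0, 1, 7)),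
    ((2 ^ (n + 4) + 17, 0, 2 ^ (n + 6) - 1), (1, 0, 7), (1, 0, 7)))

/-- The clock. -/
def clock (n t : ℕ) : ℕ := 2 ^ ((Nat.pair n t + 4) ^ 2 + 3)

theorem ratCode_val_pow (n a : ℕ) :
    RatCode.val (2 ^ (n + 4) + a, 0, 2 ^ (n + 6) - 1) = 1 / 4 + a / 2 ^ (n + 6) := by
  have h1 : ((2 ^ (n + 6) - 1 : ℕ) : ℝ) + 1 = 2 ^ (n + 6) := by
    rw [Nat.cast_sub Nat.one_le_two_pow]
    push_cast
    ring
  unfold RatCode.val
  simp only
  rw [h1]
  push_cast
  have e1 : (2 : ℝ) ^ (n + 6) = 4 * 2 ^ (n + 4) := by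
    rw [show n + 6 = (n + 4) + 2 by ring, pow_add (2 : ℝ) (n + 4) 2]; norm_num; ring
  rw [e1]
  field_simp
  ring

theorem ratCode_val_centre (n : ℕ) :
    RatCode.val (2 ^ (n + 4) + 16, 0, 2 ^ (n + 6) - 1) = centre n := by
  rw [ratCode_val_pow]
  unfold centre
  have e1 : (2 : ℝ) ^ (n + 6) = 16 * 2 ^ (n + 2) := by
    rw [show n + 6 = (n + 2) + 4 by ring, pow_add (2 : ℝ) (n + 2) 4]; norm_num; ring
  rw [e1]
  push_cast
  field_simp

theorem startPoint_mem_startBox (n : ℕ) :
    PointCode.val (startPoint n) ∈ BoxCode.val (startBox n) := by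
  intro i
  fin_cases i
  · simp only [PointCode.val, startPoint, startBox, ratCode_val_pow]
    simp only [Fin.zero_eta, Fin.isValue, Matrix.cons_val_zero]
    constructor
    · gcongr; norm_num
    · gcongr; norm_num
  · simp only [PointCode.val, startPoint, startBox, RatCode.val]
    constructor <;> norm_num
  · simp only [PointCode.val, startPoint, startBox, RatCode.val]
    constructor <;> norm_num

theorem of_mem_startBox {n : ℕ} {a : E3} (ha : a ∈ BoxCode.val (startBox n)) :
    |a 0 - centre n| < 1 / 2 ^ (n + 6) ∧ -(1 / 8) < a 2 ∧ a 2 < 1 / 8 := by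
  constructor
  · have h0 := ha 0
    simp only [PointCode.val, startBox, ratCode_val_pow, Matrix.cons_val] at h0
    rw [← ratCode_val_centre, ratCode_val_pow]
    push_cast at h0 ⊢
    have e7 : (15 : ℝ) / 2 ^ (n + 6) = 16 / 2 ^ (n + 6) - 1 / 2 ^ (n + 6) := by ring
    have e9 : (17 : ℝ) / 2 ^ (n + 6) = 16 / 2 ^ (n + 6) + 1 / 2 ^ (n + 6) := by ring
    rw [e7, e9] at h0
    rw [abs_lt]
    constructor <;> linarith [h0.1, h0.2]
  · have h2 := ha 2
    simp only [PointCode.val, startBox, RatCode.val, Matrix.cons_val] at h2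
    norm_num at h2
    constructor <;> linarith [h2.1, h2.2]

theorem primrec_startPoint : Primrec startPoint := by
  have c : ∀ k : ℕ, Primrec fun _ : ℕ => k := fun k => Primrec.const k
  have h1 : ∀ k : ℕ, Primrec fun n : ℕ => 2 ^ (n + k) := fun k =>
    primrec_pow.comp (c 2) (Primrec.nat_add.comp Primrec.id (c k))
  unfold startPoint
  exact Primrec.pair (Primrec.pair (Primrec.nat_add.comp (h1 4) (c 16))
    (Primrec.pair (c 0) (Primrec.nat_sub.comp (h1 6) (c 1)))) (Primrec.const _)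

theorem primrec_startBox : Primrec startBox := by
  have c : ∀ k : ℕ, Primrec fun _ : ℕ => k := fun k => Primrec.const k
  have h1 : ∀ k : ℕ, Primrec fun n : ℕ => 2 ^ (n + k) := fun k =>
    primrec_pow.comp (c 2) (Primrec.nat_add.comp Primrec.id (c k))
  unfold startBox
  exact Primrec.pair
    (Primrec.pair (Primrec.pair (Primrec.nat_add.comp (h1 4) (c 15))
      (Primrec.pair (c 0) (Primrec.nat_sub.comp (h1 6) (c 1)))) (Primrec.const _))
    (Primrec.pair (Primrec.pair (Primrec.nat_add.comp (h1 4) (c 17))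
      (Primrec.pair (c 0) (Primrec.nat_sub.comp (h1 6) (c 1)))) (Primrec.const _))

theorem primrec_clock : Primrec₂ clock := by
  unfold clock
  have c : ∀ k : ℕ, Primrec fun _ : ℕ × ℕ => k := fun k => Primrec.const k
  exact primrec_pow.comp (c 2) (Primrec.nat_add.comp (primrec_pow.comp
    (Primrec.nat_add.comp (Primrec₂.natPair.comp Primrec.fst Primrec.snd) (c 4)) (c 2)) (c 3))

/-- The key equivalence. -/
theorem halts_iff_orbitMeets (T : Machine) (c : T.Config) {a : E3}
    (ha : a ∈ BoxCode.val (startBox (Encodable.encode (T.describe c)))) :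
    T.Halts c ↔ OrbitMeets field a (openSet slab) := by
  obtain ⟨h0, h2, h3⟩ := of_mem_startBox ha
  have h4 : |a 2| < 1 / 4 := by rw [abs_lt]; constructor <;> linarith
  unfold field
  rw [orbitMeets_shear_iff prof (pwave_nonneg hit) a h4]
  unfold prof
  rw [pwave_pos_iff hit hit_le_one (near_of_half h0), T.halts_iff]
  exact exists_congr fun j => (hit_pair_ne_zero _ _).symm

theorem prof_le_one (s : ℝ) : prof s ≤ 1 := by
  have h1 := wave_le_of_zero hit hit_le_one 0 (Int.fract s) (fun m hm => absurd hm (by omega))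
  have h2 : (2 : ℝ) * (1 / 2 ^ ((0 + 4) ^ 2)) ≤ 1 := by norm_num
  exact h1.trans h2

theorem le_sinw {w : ℝ → ℝ} {s : ℝ} (h0 : 0 ≤ w s) (h1 : w s ≤ 1) : w s ≤ sinw w s := by
  unfold sinw
  rw [le_div_iff₀ (by positivity)]
  nlinarith [mul_nonneg h0 h0, mul_le_mul_of_nonneg_left h1 h0,
    mul_nonneg h0 (mul_nonneg h0 (sub_nonneg.2 h1)), mul_nonneg h0 (sub_nonneg.2 h1)]

theorem sinw_le {w : ℝ → ℝ} {s : ℝ} (h0 : 0 ≤ w s) : sinw w s ≤ 2 * w s := by
  unfold sinw
  rw [div_le_iff₀ (by positivity)]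
  nlinarith [mul_nonneg h0 (mul_nonneg h0 h0)]

/-- The clocked equivalence. -/
theorem state_iff_orbitMeetsBefore (T : Machine) (c : T.Config) {a : E3}
    (ha : a ∈ BoxCode.val (startBox (Encodable.encode (T.describe c)))) (t : ℕ) :
    (T.step^[t] c).1 = 1 ↔
      OrbitMeetsBefore field a (openSet slab) (clock (Encodable.encode (T.describe c)) t) := by
  obtain ⟨h0, h2, h3⟩ := of_mem_startBox ha
  have h4 : |a 2| < 1 / 4 := by rw [abs_lt]; constructor <;> linarith
  set n := Encodable.encode (T.describe c) with hn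
  unfold field
  rw [orbitMeetsBefore_shear_iff prof (pwave_nonneg hit) a h4 (Nat.cast_nonneg _)]
  have hc : ((clock n t : ℕ) : ℝ) = 2 ^ ((Nat.pair n t + 4) ^ 2) * 8 := by
    unfold clock
    push_cast
    rw [pow_add]
    norm_num
  rw [hc]
  have hw0 : 0 ≤ prof (a 0) := pwave_nonneg hit _
  constructor
  · intro ht
    have h5 : hit (Nat.pair n t) = 1 := (hit_pair_eq_one _ _).2 ((T.state_iff c t).1 ht)
    have h6 : 1 / 8 * (1 / 2 ^ ((Nat.pair n t + 4) ^ 2)) ≤ prof (a 0) :=
      pwave_lower hit hit_le_one h0 h5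
    have h7 := h6.trans (le_sinw hw0 (prof_le_one _))
    generalize hQ : (2 : ℝ) ^ ((Nat.pair n t + 4) ^ 2) = Q at *
    have hQpos : 0 < Q := by rw [← hQ]; positivity
    have h8 : 1 ≤ Q * 8 * sinw prof (a 0) := by
      calc (1 : ℝ) = Q * 8 * (1 / 8 * (1 / Q)) := by field_simp
        _ ≤ Q * 8 * sinw prof (a 0) := by gcongr
    linarith
  · intro hlt
    by_contra hcon
    have h5 : ∀ j ≤ t, hit (Nat.pair n j) = 0 := by
      intro j hj
      rw [hn, hit_pair_eq_zero]
      intro h6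
      exact hcon (T.halted_mono c hj ((T.state_iff c j).2 h6))
    have h6 : prof (a 0) ≤ 2 * (1 / 2 ^ ((Nat.pair n (t + 1) + 4) ^ 2)) :=
      pwave_upper hit hit_le_one (near_of_half h0) h5
    have h7 : sinw prof (a 0) ≤ 4 * (1 / 2 ^ ((Nat.pair n (t + 1) + 4) ^ 2)) := by
      have := sinw_le hw0
      linarith
    have h8 : (2 : ℝ) ^ ((Nat.pair n t + 4) ^ 2) * 512 ≤ 2 ^ ((Nat.pair n (t + 1) + 4) ^ 2) := by
      have h9 : Nat.pair n t < Nat.pair n (t + 1) := Nat.pair_lt_pair_right n (Nat.lt_succ_self t)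
      generalize Nat.pair n t = P at *
      generalize Nat.pair n (t + 1) = P' at *
      have h10 : (P + 4) ^ 2 + 9 ≤ (P' + 4) ^ 2 := by nlinarith
      calc (2 : ℝ) ^ ((P + 4) ^ 2) * 512 = 2 ^ ((P + 4) ^ 2 + 9) := by rw [pow_add]; norm_num
        _ ≤ 2 ^ ((P' + 4) ^ 2) := pow_le_pow_right₀ (by norm_num) h10
    generalize hQ : (2 : ℝ) ^ ((Nat.pair n t + 4) ^ 2) = Q at *
    generalize hQ' : (2 : ℝ) ^ ((Nat.pair n (t + 1) + 4) ^ 2) = Q' at *
    have hQpos : 0 < Q := by rw [← hQ]; positivity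
    have hQ'pos : 0 < Q' := by rw [← hQ']; positivity
    have h11 : Q * 8 * sinw prof (a 0) ≤ 1 / 16 := by
      calc Q * 8 * sinw prof (a 0) ≤ Q * 8 * (4 * (1 / Q')) := by gcongr
        _ = 32 * Q / Q' := by ring
        _ ≤ 1 / 16 := by
          rw [div_le_iff₀ hQ'pos]
          linarith
    linarith

theorem isRobustlyTuringComplete_field : IsRobustlyTuringComplete field := by
  refine ⟨fun d => startPoint (Encodable.encode d), fun d => startBox (Encodable.encode d),
    fun d t => clock (Encodable.encode d) t, slab,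
    (primrec_startPoint.comp Primrec.encode).to_comp,
    (primrec_startBox.comp Primrec.encode).to_comp,
    (primrec_clock.comp (Primrec.encode.comp Primrec.fst) Primrec.snd).to_comp, fun T c =>
      ⟨startPoint_mem_startBox _, fun a ha => ⟨halts_iff_orbitMeets T c ha,
        fun t => state_iff_orbitMeetsBefore T c ha t⟩⟩⟩

theorem primrec_describe (U : Machine) : Primrec U.describe := by
  unfold Machine.describe
  refine Primrec.pair (Primrec.const _) (Primrec.pair ?_ (Primrec.pair ?_ ?_))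
  · exact Primrec.fin_val.comp Primrec.fst
  · exact Primrec.list_map (Primrec.fst.comp Primrec.snd) (Primrec.fin_val.comp Primrec.snd)
  · exact Primrec.list_map (Primrec.snd.comp Primrec.snd) (Primrec.fin_val.comp Primrec.snd)

theorem isTuringComplete_field : IsTuringComplete field := by
  obtain ⟨U, hU⟩ := exists_universal
  refine ⟨U, hU, fun c => startPoint (Encodable.encode (U.describe c)), fun _ => slab,
    (primrec_startPoint.comp (Primrec.encode.comp (primrec_describe U))).to_comp,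
    Computable.const _, fun c _ => ?_⟩
  exact halts_iff_orbitMeets U c (startPoint_mem_startBox _)

/-! ### Computability of the field -/

theorem cos_diff_le (a b : ℝ) :
    |(1 - a ^ 2) / (1 + a ^ 2) - (1 - b ^ 2) / (1 + b ^ 2)| ≤ 2 * |a - b| := by
  have ha : (0 : ℝ) < 1 + a ^ 2 := by positivity
  have hb : (0 : ℝ) < 1 + b ^ 2 := by positivity
  have h1 : (1 - a ^ 2) / (1 + a ^ 2) - (1 - b ^ 2) / (1 + b ^ 2) =
      2 * (b - a) * (b + a) / ((1 + a ^ 2) * (1 + b ^ 2)) := by
    field_simp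
    ring
  rw [h1, abs_div, abs_mul, abs_mul, abs_two, abs_of_pos (mul_pos ha hb),
    div_le_iff₀ (mul_pos ha hb), abs_sub_comm b a]
  have h2 : |b + a| ≤ (1 + a ^ 2) * (1 + b ^ 2) := by
    rw [abs_le]
    constructor <;> nlinarith [sq_nonneg (a + 1), sq_nonneg (b + 1), sq_nonneg (a - 1),
      sq_nonneg (b - 1), sq_nonneg (a * b)]
  exact mul_le_mul_of_nonneg_left h2 (by positivity)

theorem sin_diff_le (a b : ℝ) :
    |2 * a / (1 + a ^ 2) - 2 * b / (1 + b ^ 2)| ≤ 2 * |a - b| := by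
  have ha : (0 : ℝ) < 1 + a ^ 2 := by positivity
  have hb : (0 : ℝ) < 1 + b ^ 2 := by positivity
  have h1 : 2 * a / (1 + a ^ 2) - 2 * b / (1 + b ^ 2) =
      2 * (a - b) * (1 - a * b) / ((1 + a ^ 2) * (1 + b ^ 2)) := by
    field_simp
    ring
  rw [h1, abs_div, abs_mul, abs_mul, abs_two, abs_of_pos (mul_pos ha hb),
    div_le_iff₀ (mul_pos ha hb)]
  have h2 : |1 - a * b| ≤ (1 + a ^ 2) * (1 + b ^ 2) := by
    rw [abs_le]
    constructor <;> nlinarith [sq_nonneg (a + b), sq_nonneg (a - b), sq_nonneg (a * b)]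
  exact mul_le_mul_of_nonneg_left h2 (by positivity)

/-- The remainder of the first coordinate. -/
def remd (q : RatCode) : ℕ := (q.1 + q.2.1 * q.2.2) % (q.2.2 + 1)

theorem fract_ratCode (q : RatCode) :
    Int.fract (RatCode.val q) = (remd q : ℝ) / ((q.2.2 + 1 : ℕ) : ℝ) := by
  unfold remd
  rw [← Int.fract_div_natCast_eq_div_natCast_mod]
  have h1 : (((q.1 + q.2.1 * q.2.2 : ℕ) : ℝ) / ((q.2.2 + 1 : ℕ) : ℝ)) =
      RatCode.val q + (q.2.1 : ℝ) := by
    unfold RatCode.val
    push_cast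
    field_simp
    ring
  rw [h1, Int.fract_add_natCast]

/-- The approximating natural number of the profile at a rational point. -/
def approxNum (q : RatCode) (K : ℕ) : ℕ := sumApprox hit (remd q) (q.2.2 + 1) K K

/-- The approximation of the field. -/
def approxField (q : PointCode) (k : ℕ) : PointCode :=
  ((0, 0, 0),
    (4 ^ (2 * k + 8), approxNum q.1 (2 * k + 8) ^ 2,
      4 ^ (2 * k + 8) + approxNum q.1 (2 * k + 8) ^ 2 - 1),
    (2 * 2 ^ (2 * k + 8) * approxNum q.1 (2 * k + 8), 0,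
      4 ^ (2 * k + 8) + approxNum q.1 (2 * k + 8) ^ 2 - 1))

theorem approxNum_spec (q : RatCode) (K : ℕ) :
    |(approxNum q K : ℝ) / 2 ^ K - prof (RatCode.val q)| ≤ (K + 2) * (1 / 2 ^ K) := by
  unfold approxNum prof pwave
  rw [fract_ratCode]
  exact wave_approx hit hit_le_one _ _ _ (Nat.succ_pos _)

theorem den_cast (K S : ℕ) : ((4 ^ K + S ^ 2 - 1 : ℕ) : ℝ) + 1 = (2 ^ K) ^ 2 + (S : ℝ) ^ 2 := by
  have h1 : 1 ≤ 4 ^ K + S ^ 2 := le_add_right (Nat.one_le_pow _ _ (by norm_num))
  rw [Nat.cast_sub h1]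
  push_cast
  rw [← pow_mul, mul_comm K 2, pow_mul]
  norm_num

theorem approx_cos (K S : ℕ) : RatCode.val (4 ^ K, S ^ 2, 4 ^ K + S ^ 2 - 1) =
    (1 - ((S : ℝ) / 2 ^ K) ^ 2) / (1 + ((S : ℝ) / 2 ^ K) ^ 2) := by
  unfold RatCode.val
  simp only
  rw [den_cast]
  push_cast
  have h4 : (4 : ℝ) ^ K = (2 ^ K) ^ 2 := by rw [← pow_mul, mul_comm K 2, pow_mul]; norm_num
  have h2 : (2 : ℝ) ^ K ≠ 0 := by positivity
  rw [h4]
  field_simp

theorem approx_sin (K S : ℕ) : RatCode.val (2 * 2 ^ K * S, 0, 4 ^ K + S ^ 2 - 1) =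
    2 * ((S : ℝ) / 2 ^ K) / (1 + ((S : ℝ) / 2 ^ K) ^ 2) := by
  unfold RatCode.val
  simp only
  rw [den_cast]
  push_cast
  have h2 : (2 : ℝ) ^ K ≠ 0 := by positivity
  field_simp
  ring

theorem approxField_spec (q : PointCode) (k : ℕ) :
    ‖field (PointCode.val q) - PointCode.val (approxField q k)‖ ≤ 1 / 2 ^ k := by
  set K := 2 * k + 8 with hK
  set S := approxNum q.1 K with hS
  have h1 := approxNum_spec q.1 K
  rw [← hS] at h1
  set v := prof (RatCode.val q.1) with hv
  have hc := cos_diff_le ((S : ℝ) / 2 ^ K) v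
  have hs := sin_diff_le ((S : ℝ) / 2 ^ K) v
  have hq0 : (PointCode.val q) 0 = RatCode.val q.1 := by simp [PointCode.val]
  have e0 : (field (PointCode.val q) - PointCode.val (approxField q k)) 0 = 0 := by
    have h2 : field (PointCode.val q) 0 = 0 := velo_zero _ _
    have h3 : PointCode.val (approxField q k) 0 = 0 := by
      simp [PointCode.val, approxField, RatCode.val]
    rw [PiLp.sub_apply, h2, h3, sub_zero]
  have e1 : |(field (PointCode.val q) - PointCode.val (approxField q k)) 1| ≤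
      2 * |(S : ℝ) / 2 ^ K - v| := by
    have h2 : field (PointCode.val q) 1 = (1 - v ^ 2) / (1 + v ^ 2) := by
      unfold field shear
      rw [velo_one, hq0]
      rfl
    have h3 : PointCode.val (approxField q k) 1 =
        (1 - ((S : ℝ) / 2 ^ K) ^ 2) / (1 + ((S : ℝ) / 2 ^ K) ^ 2) := by
      rw [← approx_cos]
      simp [PointCode.val, approxField, hK, hS]
    rw [PiLp.sub_apply, h2, h3, abs_sub_comm]
    exact hc
  have e2 : |(field (PointCode.val q) - PointCode.val (approxField q k)) 2| ≤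
      2 * |(S : ℝ) / 2 ^ K - v| := by
    have h2 : field (PointCode.val q) 2 = 2 * v / (1 + v ^ 2) := by
      unfold field shear
      rw [velo_two, hq0]
      rfl
    have h3 : PointCode.val (approxField q k) 2 =
        2 * ((S : ℝ) / 2 ^ K) / (1 + ((S : ℝ) / 2 ^ K) ^ 2) := by
      rw [← approx_sin]
      simp [PointCode.val, approxField, hK, hS]
    rw [PiLp.sub_apply, h2, h3, abs_sub_comm]
    exact hs
  have hnorm : ‖field (PointCode.val q) - PointCode.val (approxField q k)‖ ≤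
      4 * |(S : ℝ) / 2 ^ K - v| := by
    rw [EuclideanSpace.norm_eq, Fin.sum_univ_three, e0]
    apply Real.sqrt_le_iff.2
    refine ⟨by positivity, ?_⟩
    simp only [norm_zero, Real.norm_eq_abs]
    have h3 := abs_nonneg ((field (PointCode.val q) - PointCode.val (approxField q k)) 1)
    have h4 := abs_nonneg ((field (PointCode.val q) - PointCode.val (approxField q k)) 2)
    have h5 := abs_nonneg ((S : ℝ) / 2 ^ K - v)
    nlinarith
  refine hnorm.trans ?_
  have h6 : 4 * |(S : ℝ) / 2 ^ K - v| ≤ 4 * ((K + 2) * (1 / 2 ^ K)) := by linarith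
  refine h6.trans ?_
  have h7 : (k : ℝ) + 1 ≤ 2 ^ k := by
    have : k + 1 ≤ 2 ^ k := Nat.lt_two_pow_self
    exact_mod_cast this
  have h8 : (2 : ℝ) ^ K = 256 * 2 ^ k * 2 ^ k := by
    rw [hK, pow_add, mul_comm 2 k, pow_mul]
    ring
  have h9 : ((K : ℕ) : ℝ) = 2 * k + 8 := by rw [hK]; push_cast; ring
  rw [h8, h9]
  have h10 : (0 : ℝ) < 2 ^ k := by positivity
  rw [show (4 : ℝ) * ((2 * k + 8 + 2) * (1 / (256 * 2 ^ k * 2 ^ k))) =
    ((8 * k + 40) / (256 * 2 ^ k)) * (1 / 2 ^ k) by field_simp; ring]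
  have h11 : (8 * (k : ℝ) + 40) / (256 * 2 ^ k) ≤ 1 := by
    rw [div_le_one (by positivity)]
    have : (0 : ℝ) ≤ k := by positivity
    linarith
  calc ((8 * (k : ℝ) + 40) / (256 * 2 ^ k)) * (1 / 2 ^ k) ≤ 1 * (1 / 2 ^ k) := by gcongr
    _ = 1 / 2 ^ k := one_mul _

theorem primrec_approxField : Primrec₂ approxField := by
  have c : ∀ k : ℕ, Primrec fun _ : PointCode × ℕ => k := fun k => Primrec.const k
  have hq : Primrec fun p : PointCode × ℕ => p.1.1 := Primrec.fst.comp Primrec.fst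
  have ha : Primrec fun p : PointCode × ℕ => p.1.1.1 := Primrec.fst.comp hq
  have hb : Primrec fun p : PointCode × ℕ => p.1.1.2.1 := Primrec.fst.comp (Primrec.snd.comp hq)
  have hd : Primrec fun p : PointCode × ℕ => p.1.1.2.2 := Primrec.snd.comp (Primrec.snd.comp hq)
  have hD : Primrec fun p : PointCode × ℕ => p.1.1.2.2 + 1 := Primrec.nat_add.comp hd (c 1)
  have hr : Primrec fun p : PointCode × ℕ => remd p.1.1 :=
    Primrec.nat_mod.comp (Primrec.nat_add.comp ha (Primrec.nat_mul.comp hb hd)) hD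
  have hK : Primrec fun p : PointCode × ℕ => 2 * p.2 + 8 :=
    Primrec.nat_add.comp (Primrec.nat_mul.comp (c 2) Primrec.snd) (c 8)
  have hS : Primrec fun p : PointCode × ℕ => approxNum p.1.1 (2 * p.2 + 8) :=
    primrec_sumApprox primrec_hit hr hD hK
  have hS2 : Primrec fun p : PointCode × ℕ => approxNum p.1.1 (2 * p.2 + 8) ^ 2 :=
    primrec_pow.comp hS (c 2)
  have h4 : Primrec fun p : PointCode × ℕ => 4 ^ (2 * p.2 + 8) := primrec_pow.comp (c 4) hK
  have h2 : Primrec fun p : PointCode × ℕ => 2 ^ (2 * p.2 + 8) := primrec_pow.comp (c 2) hK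
  have hden : Primrec fun p : PointCode × ℕ =>
      4 ^ (2 * p.2 + 8) + approxNum p.1.1 (2 * p.2 + 8) ^ 2 - 1 :=
    Primrec.nat_sub.comp (Primrec.nat_add.comp h4 hS2) (c 1)
  have hnum : Primrec fun p : PointCode × ℕ =>
      2 * 2 ^ (2 * p.2 + 8) * approxNum p.1.1 (2 * p.2 + 8) :=
    Primrec.nat_mul.comp (Primrec.nat_mul.comp (c 2) h2) hS
  exact Primrec.pair (Primrec.const _) (Primrec.pair (Primrec.pair h4 (Primrec.pair hS2 hden))
    (Primrec.pair hnum (Primrec.pair (c 0) hden)))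

theorem isComputableField_field : IsComputableField field :=
  ⟨⟨approxField, primrec_approxField.to_comp, approxField_spec⟩,
    lipschitz_shear prof (contDiff_pwave hit hit_le_one) (pwave_periodic hit)⟩

theorem main_result : ∃ X : E3 → E3, IsStationaryEulerFlow X ∧ IsTuringComplete X ∧
    IsRobustlyTuringComplete X ∧ IsComputableField X ∧ IsBeltrami X ∧ ∀ x, ‖X x‖ = 1 :=
  ⟨field, isStationaryEulerFlow_shear prof (contDiff_pwave hit hit_le_one) (pwave_periodic hit),
    isTuringComplete_field, isRobustlyTuringComplete_field, isComputableField_field,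
    isBeltrami_shear prof (contDiff_pwave hit hit_le_one) (pwave_periodic hit),
    norm_shear prof⟩

end TuringEuler
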